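import Pool.Agent.H719R2.PIB.Impl

/-!
# Coordinates `x`, `y` of the leaves along the tangent lines, and their derivatives
-/

open Set Filter Topology Complex
open scoped ContDiff Real

namespace Pool.Agent.H719R2.PIB

variable {Y : ℂ → ℝ}

lemma transversal' (h : IsCollar Y) {Θ s : ℝ} (hs : s ≠ 0) (h1 : Y (P Θ s) ≤ 1) :
    0 < s * (R Y (P Θ s) + s * N Y (P Θ s)) := by
  have := h.transversal hs h1
  rw [fderiv_T] at this
  have h2 : (0 : ℝ) < 1 + s ^ 2 := by positivity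
  have h3 : s * ((R Y (P Θ s) + s * N Y (P Θ s)) / (1 + s ^ 2)) * (1 + s ^ 2)
      = s * (R Y (P Θ s) + s * N Y (P Θ s)) := by field_simp
  rw [← h3]; positivity

/-- Each exterior point lies on two tangent lines. -/
lemma P_shift (Θ s : ℝ) : P (Θ + 2 * Real.arctan s) (-s) = P Θ s := by
  have h1 : Real.cos (2 * Real.arctan s) = (1 - s ^ 2) / (1 + s ^ 2) := by
    rw [Real.cos_two_mul, Real.cos_sq_arctan]; 
    have : (0 : ℝ) < 1 + s ^ 2 := by positivity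
    field_simp; ring
  have h2 : Real.sin (2 * Real.arctan s) = 2 * s / (1 + s ^ 2) := by
    rw [Real.sin_two_mul, Real.sin_arctan, Real.cos_arctan]
    have h3 : (0 : ℝ) < 1 + s ^ 2 := by positivity
    have h4 : Real.sqrt (1 + s ^ 2) * Real.sqrt (1 + s ^ 2) = 1 + s ^ 2 :=
      Real.mul_self_sqrt h3.le
    have h5 : Real.sqrt (1 + s ^ 2) ≠ 0 := (Real.sqrt_pos.2 h3).ne'
    field_simp
    rw [Real.sq_sqrt h3.le]
  have h3 : exp ((2 * Real.arctan s : ℝ) * I) = ((1 - s ^ 2) / (1 + s ^ 2) : ℝ)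
      + (2 * s / (1 + s ^ 2) : ℝ) * I := by
    rw [exp_mul_I, ← ofReal_cos, ← ofReal_sin, h1, h2]
  have h4 : exp ((2 * Real.arctan s : ℝ) * I) * (1 + ((-s : ℝ) : ℂ) * I) = 1 + s * I := by
    rw [h3]
    have h5 : (1 + (s : ℂ) ^ 2) ≠ 0 := by
      have : (0 : ℝ) < 1 + s ^ 2 := by positivity
      exact_mod_cast this.ne'
    push_cast
    field_simp
    linear_combination (-2 * (s : ℂ) ^ 2 ) * I_sq
  unfold P
  rw [← h4, ← mul_assoc, ← exp_add]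
  congr 2
  push_cast; ring

/-- Parametrisation of the exterior by tangent lines. -/
lemma exists_eq_P {z : ℂ} (_hz : 1 < ‖z‖) (s : ℝ) (hs : s ^ 2 = ‖z‖ ^ 2 - 1) :
    ∃ Θ, z = P Θ s := by
  have h1 : (1 + (s : ℂ) * I) ≠ 0 := by
    intro h
    have := congrArg Complex.re h
    simp at this
  have h2 : ‖z / (1 + (s : ℂ) * I)‖ = 1 := by
    rw [norm_div, div_eq_one_iff_eq (norm_ne_zero_iff.2 h1)]
    have h3 : ‖(1 + (s : ℂ) * I)‖ ^ 2 = 1 + s ^ 2 := by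
      have := norm_P_sq 0 s
      simpa [P] using this
    have h4 : ‖z‖ ^ 2 = ‖(1 + (s : ℂ) * I)‖ ^ 2 := by rw [h3, hs]; ring
    exact (pow_left_inj₀ (norm_nonneg _) (norm_nonneg _) (by norm_num)).1 h4
  refine ⟨arg (z / (1 + s * I)), ?_⟩
  have h3 := norm_mul_exp_arg_mul_I (z / (1 + s * I))
  rw [h2, ofReal_one, one_mul] at h3
  unfold P
  rw [h3]
  field_simp

lemma N_pos (h : IsCollar Y) {z : ℂ} (h0 : 0 < Y z) (h1 : Y z ≤ 1) : 0 < N Y z := by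
  have hz : 1 < ‖z‖ := h.pos_iff.1 h0
  set s := Real.sqrt (‖z‖ ^ 2 - 1) with hs
  have hpos : 0 < ‖z‖ ^ 2 - 1 := by nlinarith
  have hs2 : s ^ 2 = ‖z‖ ^ 2 - 1 := Real.sq_sqrt hpos.le
  have hs0 : 0 < s := Real.sqrt_pos.2 hpos
  obtain ⟨Θ, hΘ⟩ := exists_eq_P hz s hs2
  have e1 := transversal' h (Θ := Θ) hs0.ne' (by rw [← hΘ]; exact h1)
  have e2 := transversal' h (Θ := Θ + 2 * Real.arctan s) (s := -s) (by linarith [hs0] |> ne_of_lt)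
    (by rw [P_shift, ← hΘ]; exact h1)
  rw [P_shift] at e2
  rw [← hΘ] at e1 e2
  have : 0 < s ^ 2 * N Y z := by nlinarith
  exact (pos_iff_pos_of_mul_pos this).1 (by positivity)

/-- The left coordinate. -/
noncomputable def xx (Y : ℂ → ℝ) (c Θ : ℝ) : ℝ := -(S Y (-1) c Θ)⁻¹

/-- The right coordinate. -/
noncomputable def yy (Y : ℂ → ℝ) (c Θ : ℝ) : ℝ := (S Y 1 c Θ)⁻¹

/-- The point of the leaf on the tangent line. -/
noncomputable def Z (Y : ℂ → ℝ) (σ c Θ : ℝ) : ℂ := P Θ (S Y σ c Θ)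

section basics

variable (h : IsCollar Y) {c : ℝ} (h0 : 0 < c) (h1 : c ≤ 1) (Θ : ℝ)
include h h0 h1

lemma Y_Z {σ : ℝ} (hσ : σ ^ 2 = 1) : Y (Z Y σ c Θ) = c := (S_spec h hσ h0 h1 Θ).2

lemma S_pos : 0 < S Y 1 c Θ := by simpa using (S_spec h (σ := 1) (by norm_num) h0 h1 Θ).1

lemma S_neg : S Y (-1) c Θ < 0 := by
  have := (S_spec h (σ := -1) (by norm_num) h0 h1 Θ).1
  linarith

lemma xx_pos : 0 < xx Y c Θ := by
  unfold xx
  have := inv_lt_zero.2 (S_neg h h0 h1 Θ)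
  linarith

lemma yy_pos : 0 < yy Y c Θ := inv_pos.2 (S_pos h h0 h1 Θ)

lemma S_ne {σ : ℝ} (hσ : σ ^ 2 = 1) : S Y σ c Θ ≠ 0 := by
  intro hcon
  have := (S_spec h hσ h0 h1 Θ).1
  rw [hcon] at this; simp at this

lemma S_transversal {σ : ℝ} (hσ : σ ^ 2 = 1) :
    0 < S Y σ c Θ * (R Y (Z Y σ c Θ) + S Y σ c Θ * N Y (Z Y σ c Θ)) :=
  transversal' h (S_ne h h0 h1 Θ hσ) (by
    have h2 : Y (P Θ (S Y σ c Θ)) = c := Y_Z h h0 h1 Θ hσ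
    rw [h2]; exact h1)

lemma S_den_ne {σ : ℝ} (hσ : σ ^ 2 = 1) :
    R Y (Z Y σ c Θ) + S Y σ c Θ * N Y (Z Y σ c Θ) ≠ 0 := by
  intro hcon
  have := S_transversal h h0 h1 Θ hσ
  rw [hcon] at this; simp at this

lemma N_Z_pos {σ : ℝ} (hσ : σ ^ 2 = 1) : 0 < N Y (Z Y σ c Θ) :=
  N_pos h (by rw [Y_Z h h0 h1 Θ hσ]; exact h0) (by rw [Y_Z h h0 h1 Θ hσ]; exact h1)

lemma S_hasDerivAt_right {σ : ℝ} (hσ : σ ^ 2 = 1) :
    HasDerivAt (fun Θ => S Y σ c Θ)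
      (-(R Y (Z Y σ c Θ) * (1 + S Y σ c Θ ^ 2)) /
        (R Y (Z Y σ c Θ) + S Y σ c Θ * N Y (Z Y σ c Θ))) Θ := by
  obtain ⟨ψ, L, hψ, hL, hev⟩ := exists_implicit h hσ h0 h1 Θ
  have e1 : HasDerivAt (fun Θ : ℝ => ((c, Θ) : ℝ × ℝ)) (0, 1) Θ :=
    (hasDerivAt_const Θ c).prodMk (hasDerivAt_id Θ)
  have e2 : HasDerivAt (fun Θ : ℝ => ψ (c, Θ)) (L (0, 1)) Θ :=
    HasFDerivAt.comp_hasDerivAt (f := fun Θ : ℝ => ((c, Θ) : ℝ × ℝ)) Θ hψ.hasFDerivAt e1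
  have e3 : (fun Θ => S Y σ c Θ) =ᶠ[𝓝 Θ] fun Θ => ψ (c, Θ) := by
    have : Tendsto (fun Θ : ℝ => ((c, Θ) : ℝ × ℝ)) (𝓝 Θ) (𝓝 (c, Θ)) := e1.continuousAt
    filter_upwards [this.eventually hev] with t ht
    exact (ht h0 h1).symm
  refine (e2.congr_of_eventuallyEq e3).congr_deriv ?_
  rw [hL, fderiv_T]
  have h2 : (1 + S Y σ c Θ ^ 2) ≠ 0 := by positivity
  have h3 := S_den_ne h h0 h1 Θ hσ
  unfold Z at *
  field_simp
  ring

lemma S_continuousWithinAt {σ : ℝ} (hσ : σ ^ 2 = 1) :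
    ContinuousWithinAt (fun q : ℝ × ℝ => S Y σ q.1 q.2) {q | 0 < q.1 ∧ q.1 ≤ 1} (c, Θ) := by
  obtain ⟨ψ, L, hψ, hL, hev⟩ := exists_implicit h hσ h0 h1 Θ
  have e1 : ContinuousWithinAt ψ {q | 0 < q.1 ∧ q.1 ≤ 1} (c, Θ) :=
    hψ.hasFDerivAt.continuousAt.continuousWithinAt
  refine e1.congr_of_eventuallyEq ?_ (hev.self_of_nhds h0 h1).symm
  filter_upwards [hev.filter_mono nhdsWithin_le_nhds, self_mem_nhdsWithin] with q hq hq2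
  exact (hq hq2.1 hq2.2).symm

end basics

lemma S_hasDerivAt_left (h : IsCollar Y) {c : ℝ} (h0 : 0 < c) (h1 : c < 1) (Θ : ℝ)
    {σ : ℝ} (hσ : σ ^ 2 = 1) :
    HasDerivAt (fun c => S Y σ c Θ)
      ((1 + S Y σ c Θ ^ 2) / (R Y (Z Y σ c Θ) + S Y σ c Θ * N Y (Z Y σ c Θ))) c := by
  obtain ⟨ψ, L, hψ, hL, hev⟩ := exists_implicit h hσ h0 h1.le Θ
  have e1 : HasDerivAt (fun c : ℝ => ((c, Θ) : ℝ × ℝ)) (1, 0) c :=
    (hasDerivAt_id c).prodMk (hasDerivAt_const c Θ)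
  have e2 : HasDerivAt (fun c : ℝ => ψ (c, Θ)) (L (1, 0)) c :=
    HasFDerivAt.comp_hasDerivAt (f := fun c : ℝ => ((c, Θ) : ℝ × ℝ)) c hψ.hasFDerivAt e1
  have e3 : (fun c => S Y σ c Θ) =ᶠ[𝓝 c] fun c => ψ (c, Θ) := by
    have : Tendsto (fun c : ℝ => ((c, Θ) : ℝ × ℝ)) (𝓝 c) (𝓝 (c, Θ)) := e1.continuousAt
    filter_upwards [this.eventually hev, lt_mem_nhds h0, gt_mem_nhds h1] with t ht ht0 ht1
    exact (ht ht0 ht1.le).symm
  refine (e2.congr_of_eventuallyEq e3).congr_deriv ?_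
  rw [hL, fderiv_T]
  have h2 : (1 + S Y σ c Θ ^ 2) ≠ 0 := by positivity
  have h3 := S_den_ne h h0 h1.le Θ hσ
  unfold Z at *
  field_simp
  ring

lemma S_continuousOn (h : IsCollar Y) {σ : ℝ} (hσ : σ ^ 2 = 1) :
    ContinuousOn (fun q : ℝ × ℝ => S Y σ q.1 q.2) {q | 0 < q.1 ∧ q.1 ≤ 1} := fun q hq =>
  S_continuousWithinAt h hq.1 hq.2 q.2 hσ

lemma Z_continuousOn (h : IsCollar Y) {σ : ℝ} (hσ : σ ^ 2 = 1) :
    ContinuousOn (fun q : ℝ × ℝ => Z Y σ q.1 q.2) {q | 0 < q.1 ∧ q.1 ≤ 1} := by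
  unfold Z
  exact P_continuous.comp_continuousOn (continuousOn_snd.prodMk (S_continuousOn h hσ))

lemma fderiv_Z_continuousOn (h : IsCollar Y) {σ : ℝ} (hσ : σ ^ 2 = 1) :
    ContinuousOn (fun q : ℝ × ℝ => fderiv ℝ Y (Z Y σ q.1 q.2)) {q | 0 < q.1 ∧ q.1 ≤ 1} := by
  intro q hq
  have hz := Y_Z h hq.1 hq.2 q.2 hσ
  have h2 : ContDiffAt ℝ 1 Y (Z Y σ q.1 q.2) :=
    h.contDiffAt (by rw [hz]; exact hq.1.le) (by rw [hz]; exact hq.2)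
  have h3 : ContinuousAt (fderiv ℝ Y) (Z Y σ q.1 q.2) :=
    (h2.fderiv_right (m := 0) (by norm_num)).continuousAt
  exact ContinuousAt.comp_continuousWithinAt (f := fun q : ℝ × ℝ => Z Y σ q.1 q.2) h3
    (Z_continuousOn h hσ q hq)

lemma R_continuousOn (h : IsCollar Y) {σ : ℝ} (hσ : σ ^ 2 = 1) :
    ContinuousOn (fun q : ℝ × ℝ => R Y (Z Y σ q.1 q.2)) {q | 0 < q.1 ∧ q.1 ≤ 1} := by
  unfold R
  exact (fderiv_Z_continuousOn h hσ).clm_apply (continuousOn_const.mul (Z_continuousOn h hσ))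

lemma N_continuousOn (h : IsCollar Y) {σ : ℝ} (hσ : σ ^ 2 = 1) :
    ContinuousOn (fun q : ℝ × ℝ => N Y (Z Y σ q.1 q.2)) {q | 0 < q.1 ∧ q.1 ≤ 1} := by
  unfold N
  exact (fderiv_Z_continuousOn h hσ).clm_apply (Z_continuousOn h hσ)

end Pool.Agent.H719R2.PIB
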