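import Mathlib

/-!
# Collars of the unit circle foliated by convex curves

Definitions for the rigidity theorem.
-/

open Set Complex
open scoped ContDiff

namespace Pool.Agent.H719R2.PIB

/-- The closed exterior collar `{0 ≤ Y ≤ 1}` of the unit circle is foliated by the closed convex
curves `{Y = c}`, `0 ≤ c ≤ 1`: `Y` is continuously differentiable with nonzero differential on
(a neighbourhood of) the collar, the sets `{Y ≤ c}` are compact and convex, `{Y = 0}` is the unit
circle and `{Y < 0}` is the open unit disc. -/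
structure IsCollar (Y : ℂ → ℝ) : Prop where
  smooth : ∃ U : Set ℂ, IsOpen U ∧ {z | 0 ≤ Y z ∧ Y z ≤ 1} ⊆ U ∧ ContDiffOn ℝ 1 Y U
  regular : ∀ z, 0 ≤ Y z → Y z ≤ 1 → fderiv ℝ Y z ≠ 0
  compact : ∀ c, 0 ≤ c → c ≤ 1 → IsCompact {z | Y z ≤ c}
  convex : ∀ c, 0 ≤ c → c ≤ 1 → Convex ℝ {z | Y z ≤ c}
  leaf_zero : ∀ z, Y z = 0 ↔ ‖z‖ = 1
  inner : ∀ z, Y z < 0 ↔ ‖z‖ < 1

/-- On the tangent line `t ↦ p + t i p` of the unit circle at `p`, the involution exchanging, for
every leaf of the collar, the two points of intersection with that leaf is the restriction of a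
projective transformation `t ↦ a t / (c t + d)` fixing `p`. -/
def ProjectiveInvolution (Y : ℂ → ℝ) (p : ℂ) : Prop :=
  ∃ a c d : ℝ, a * d ≠ 0 ∧ ∀ s t : ℝ, s < 0 → 0 < t →
    Y (p + t • (I * p)) ≤ 1 → Y (p + s • (I * p)) = Y (p + t • (I * p)) →
      c * s + d ≠ 0 ∧ a * s / (c * s + d) = t ∧ c * t + d ≠ 0 ∧ a * t / (c * t + d) = s

/-- `w` is the image of `z` under the dual billiard step about the unit circle: the segment from
`z` to `w` touches the unit circle at an inner point `p` of the segment, and is directed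
counterclockwise. -/
def Next (z w : ℂ) : Prop :=
  ∃ p : ℂ, ‖p‖ = 1 ∧ ∃ s t : ℝ, s < 0 ∧ 0 < t ∧ z = p + s • (I * p) ∧ w = p + t • (I * p)

/-- Every point of the outer leaf `{Y = 1}` is a vertex of a quadrilateral with vertices on that
leaf whose sides touch the unit circle. -/
def OuterLeafFourPeriodic (Y : ℂ → ℝ) : Prop :=
  ∀ z₁, Y z₁ = 1 → ∃ z₂ z₃ z₄, Y z₂ = 1 ∧ Y z₃ = 1 ∧ Y z₄ = 1 ∧
    Next z₁ z₂ ∧ Next z₂ z₃ ∧ Next z₃ z₄ ∧ Next z₄ z₁

/-- The leaves of the collar are symmetric about the centre `0` of the unit circle. -/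
def IsSymmetric (Y : ℂ → ℝ) : Prop := ∀ z, 0 ≤ Y z → Y z ≤ 1 → Y (-z) = Y z

end Pool.Agent.H719R2.PIB
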