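import Pool.Agent.H719R2.PIB.End

/-!
# The leaves are ellipses
-/

open Set Complex
open scoped ContDiff

namespace Pool.Agent.H719R2.PIB

variable {Y : ℂ → ℝ}

/-- Every ray from the centre meets every leaf. -/
lemma exists_ray (h : IsCollar Y) {c : ℝ} (h0 : 0 ≤ c) (h1 : c ≤ 1) {w : ℂ} (hw : ‖w‖ = 1) :
    ∃ t : ℝ, 0 < t ∧ Y ((t : ℂ) * w) = c := by
  obtain ⟨U, hU, hsub, hd⟩ := h.smooth
  set T : Set ℝ := {t : ℝ | 1 ≤ t ∧ Y ((t : ℂ) * w) ≤ c} with hT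
  have hcont : Continuous fun t : ℝ => (t : ℂ) * w := by fun_prop
  have hcl : IsClosed T :=
    IsClosed.inter isClosed_Ici ((h.compact c h0 h1).isClosed.preimage hcont)
  have hY1 : Y ((1 : ℝ) * w) = 0 := by
    rw [ofReal_one, one_mul]; exact (h.leaf_zero w).2 hw
  have hne : T.Nonempty := ⟨1, le_rfl, by rw [hY1]; exact h0⟩
  have hbd : BddAbove T := by
    obtain ⟨R, hR⟩ := (h.compact c h0 h1).isBounded.exists_norm_le
    refine ⟨R, fun t ht => ?_⟩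
    have h5 := hR _ ht.2
    rw [norm_mul, hw, mul_one, norm_real, Real.norm_eq_abs] at h5
    exact le_trans (le_abs_self t) h5
  have hmem := hcl.csSup_mem hne hbd
  set t := sSup T with ht
  refine ⟨t, by linarith [hmem.1], ?_⟩
  by_contra hcon
  have hlt : Y ((t : ℂ) * w) < c := lt_of_le_of_ne hmem.2 hcon
  have hge : 0 ≤ Y ((t : ℂ) * w) := by
    by_contra h6
    push Not at h6
    have h7 := (h.inner _).1 h6
    rw [norm_mul, hw, mul_one, norm_real, Real.norm_eq_abs] at h7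
    have := le_abs_self t
    linarith [hmem.1]
  have hU' : (t : ℂ) * w ∈ U := hsub ⟨hge, by linarith⟩
  have hc : ContinuousAt Y ((t : ℂ) * w) := (hd.continuousOn).continuousAt (hU.mem_nhds hU')
  have hc2 : ContinuousAt (fun t : ℝ => Y ((t : ℂ) * w)) t :=
    ContinuousAt.comp (f := fun t : ℝ => (t : ℂ) * w) (g := Y) hc hcont.continuousAt
  have hev := hc2.eventually (gt_mem_nhds hlt)
  obtain ⟨ε, hε, hε2⟩ := Metric.eventually_nhds_iff.1 hev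
  have h8 := hε2 (y := t + ε / 2) (by rw [Real.dist_eq]; rw [abs_lt]; constructor <;> linarith)
  have h9 : t + ε / 2 ∈ T := ⟨by linarith [hmem.1], h8.le⟩
  have := le_csSup hbd h9
  linarith

/-- All the leaves are ellipses of one pencil. -/
theorem rigidity_ellipse (h : IsCollar Y) (hp : ∀ p : ℂ, ‖p‖ = 1 → ProjectiveInvolution Y p)
    (hs : IsSymmetric Y) (h4 : OuterLeafFourPeriodic Y) :
    ∃ ζ : ℂ, ‖ζ‖ < 1 ∧ ∀ c, 0 ≤ c → c ≤ 1 → ∃ s : ℝ, 0 ≤ s ∧ s * (1 + ‖ζ‖) < 1 ∧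
      {z : ℂ | Y z = c} = {z : ℂ | normSq z - 1 = s * (normSq z - (ζ * z ^ 2).re)} := by
  obtain ⟨ζ, hζ, hall⟩ := rigidity h hp hs h4
  refine ⟨ζ, hζ, fun c h0 h1 => ?_⟩
  obtain ⟨s, hs0, hset⟩ := hall c h0 h1
  refine ⟨s, hs0, ?_, hset⟩
  -- a unit vector `w` with `ζ w² = -‖ζ‖`
  obtain ⟨w, hw, hw2⟩ : ∃ w : ℂ, ‖w‖ = 1 ∧ ζ * w ^ 2 = -(‖ζ‖ : ℂ) := by
    refine ⟨exp (((Real.pi - arg ζ) / 2 : ℝ) * I), norm_exp_ofReal_mul_I _, ?_⟩
    have e1 : exp (((Real.pi - arg ζ) / 2 : ℝ) * I) ^ 2 = exp (((Real.pi : ℂ) - arg ζ) * I) := by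
      rw [← exp_nat_mul]; congr 1; push_cast; ring
    rw [e1, sub_mul, exp_sub, exp_pi_mul_I]
    nth_rewrite 1 [← norm_mul_exp_arg_mul_I ζ]
    have : exp ((arg ζ : ℂ) * I) ≠ 0 := exp_ne_zero _
    field_simp
  obtain ⟨t, ht, hYt⟩ := exists_ray h h0 h1 hw
  have hz : ((t : ℂ) * w) ∈ {z : ℂ | Y z = c} := hYt
  rw [hset] at hz
  simp only [mem_ofPred_eq] at hz
  have e1 : normSq ((t : ℂ) * w) = t ^ 2 := by
    rw [normSq_eq_norm_sq, norm_mul, hw, mul_one, norm_real, Real.norm_eq_abs, sq_abs]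
  have e2 : (ζ * ((t : ℂ) * w) ^ 2).re = -(t ^ 2 * ‖ζ‖) := by
    have : ζ * ((t : ℂ) * w) ^ 2 = ((-(t ^ 2 * ‖ζ‖) : ℝ) : ℂ) := by
      push_cast
      rw [mul_pow]
      linear_combination (t : ℂ) ^ 2 * hw2
    rw [this, ofReal_re]
  rw [e1, e2] at hz
  have h5 : t ^ 2 * (1 - s * (1 + ‖ζ‖)) = 1 := by linarith
  have h6 : 0 < t ^ 2 := by positivity
  have h7 : 0 < 1 - s * (1 + ‖ζ‖) := by
    by_contra hcon
    push Not at hcon
    nlinarith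
  linarith

end Pool.Agent.H719R2.PIB
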