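import Pool.Agent.H719R2.PIB.Four

/-!
# The rigidity theorem: all leaves are ellipses of one pencil
-/

open Set Filter Topology Complex MeasureTheory
open scoped ContDiff Real

namespace Pool.Agent.H719R2.PIB

variable {Y : ℂ → ℝ}

section

variable (h : IsCollar Y) (hs : IsSymmetric Y) (h4 : OuterLeafFourPeriodic Y) {v : ℝ → ℝ}
  (hv : HV Y v)
include h hs h4 hv

lemma v_formula (Θ : ℝ) : v Θ = (S Y 1 1 Θ)⁻¹ - S Y 1 1 Θ := by
  have := hv 1 Θ one_pos le_rfl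
  rw [xy_one h hs h4] at this
  unfold yy at this
  linarith

lemma vp_formula (Θ : ℝ) : vp Y Θ = -((1 + S Y 1 1 Θ ^ 2) / S Y 1 1 Θ) ^ 2 * bb' Y Θ := by
  have e1 := v_hasDerivAt h hv Θ
  have hpos := S_pos h one_pos le_rfl Θ
  have dS : HasDerivAt (fun Θ => S Y 1 1 Θ) ((1 + S Y 1 1 Θ ^ 2) * bb' Y Θ) Θ := by
    refine (S_hasDerivAt_right h one_pos le_rfl Θ (σ := 1) (by norm_num)).congr_deriv ?_
    unfold bb' den
    ring
  have e2 : HasDerivAt v (-((1 + S Y 1 1 Θ ^ 2) * bb' Y Θ) / S Y 1 1 Θ ^ 2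
      - (1 + S Y 1 1 Θ ^ 2) * bb' Y Θ) Θ := by
    have : v = fun Θ => (S Y 1 1 Θ)⁻¹ - S Y 1 1 Θ := by
      ext t; exact v_formula h hs h4 hv t
    rw [this]
    exact (dS.inv hpos.ne').sub dS
  rw [e1.unique e2]
  field_simp
  ring

lemma sum_formula (Θ : ℝ) : v Θ ^ 2 + 4 - 2 * vp Y Θ
    = ((1 + S Y 1 1 Θ ^ 2) / S Y 1 1 Θ) ^ 2 * (1 + 2 * bb' Y Θ) := by
  have hpos := S_pos h one_pos le_rfl Θ
  rw [v_formula h hs h4 hv, vp_formula h hs h4 hv]
  field_simp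
  ring

lemma sum_pos (Θ : ℝ) : 0 < v Θ ^ 2 + 4 - 2 * vp Y Θ := by
  rw [sum_formula h hs h4 hv]
  have := bb_slope h Θ
  have hpos := S_pos h one_pos le_rfl Θ
  positivity

lemma sin_two_bb (Θ : ℝ) : Real.sin (2 * bb Y Θ) = 2 * S Y 1 1 Θ / (1 + S Y 1 1 Θ ^ 2) := by
  unfold bb
  rw [Real.sin_two_mul, Real.sin_arctan, Real.cos_arctan]
  have h3 : (0 : ℝ) < 1 + S Y 1 1 Θ ^ 2 := by positivity
  have h5 : Real.sqrt (1 + S Y 1 1 Θ ^ 2) ≠ 0 := (Real.sqrt_pos.2 h3).ne'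
  field_simp
  rw [Real.sq_sqrt h3.le]

lemma cos_two_bb (Θ : ℝ) :
    Real.cos (2 * bb Y Θ) = (1 - S Y 1 1 Θ ^ 2) / (1 + S Y 1 1 Θ ^ 2) := by
  unfold bb
  rw [Real.cos_two_mul, Real.cos_sq_arctan]
  have : (0 : ℝ) < 1 + S Y 1 1 Θ ^ 2 := by positivity
  field_simp; ring

lemma EE_one (Θ : ℝ) : EE Y v 1 Θ = 2 * Real.sqrt (1 + 2 * bb' Y Θ) / Real.sin (2 * bb Y Θ) *
    Real.arctan (Real.sqrt (1 + 2 * bb' Y Θ)) - π / 2 := by
  have hpos := S_pos h one_pos le_rfl Θ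
  have hsl := bb_slope h Θ
  have hcc : cc Y v Θ = (1 + S Y 1 1 Θ ^ 2) / S Y 1 1 Θ * Real.sqrt (1 + 2 * bb' Y Θ) := by
    unfold cc
    rw [sum_formula h hs h4 hv, Real.sqrt_mul (by positivity), Real.sqrt_sq (by positivity)]
  have hxy : xx Y 1 Θ + yy Y 1 Θ = (1 + S Y 1 1 Θ ^ 2) / S Y 1 1 Θ := by
    rw [xy_one h hs h4]; unfold yy; field_simp; ring
  unfold EE
  rw [hcc, hxy]
  have e1 : (1 + S Y 1 1 Θ ^ 2) / S Y 1 1 Θ * Real.sqrt (1 + 2 * bb' Y Θ) /
      ((1 + S Y 1 1 Θ ^ 2) / S Y 1 1 Θ) = Real.sqrt (1 + 2 * bb' Y Θ) := by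
    field_simp
  have e2 : Real.arctan (xx Y 1 Θ)⁻¹ + Real.arctan (yy Y 1 Θ)⁻¹ = π / 2 := by
    rw [xy_one h hs h4]
    unfold yy
    rw [inv_inv, Real.arctan_inv_of_pos hpos]; ring
  rw [e1, e2, sin_two_bb h hs h4 hv]
  congr 2
  field_simp

theorem NN_one_le : NN Y v 1 ≤ 0 ∧ (0 ≤ NN Y v 1 → 4 * π ≤
    ∫ t in (0 : ℝ)..(2 * π), 2 * Real.sqrt (1 + 2 * bb' Y t) / Real.sin (2 * bb Y t)) := by
  have H := bData h hs h4
  have hpi := Real.pi_pos
  have cu : Continuous (fun t => Real.sqrt (1 + 2 * bb' Y t)) :=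
    Real.continuous_sqrt.comp (continuous_const.add (continuous_const.mul H.hb'))
  have cg : Continuous (fun t => 2 * Real.sqrt (1 + 2 * bb' Y t) / Real.sin (2 * bb Y t) *
      Real.arctan (Real.sqrt (1 + 2 * bb' Y t))) :=
    H.len_cont.mul (Real.continuous_arctan.comp cu)
  have e1 : NN Y v 1 = π / 4 * (∫ t in (0 : ℝ)..(2 * π),
      2 * Real.sqrt (1 + 2 * bb' Y t) / Real.sin (2 * bb Y t)) - π ^ 2 := by
    unfold NN
    rw [← H.arctan_integral]
    have e2 : (∫ Θ in (0 : ℝ)..(2 * π), EE Y v 1 Θ) = ∫ t in (0 : ℝ)..(2 * π),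
        (2 * Real.sqrt (1 + 2 * bb' Y t) / Real.sin (2 * bb Y t) *
          Real.arctan (Real.sqrt (1 + 2 * bb' Y t)) - π / 2) :=
      intervalIntegral.integral_congr fun t _ => EE_one h hs h4 hv t
    have i1 := intervalIntegral.integral_sub (μ := volume) (a := 0) (b := 2 * π)
      (f := fun t => 2 * Real.sqrt (1 + 2 * bb' Y t) / Real.sin (2 * bb Y t) *
          Real.arctan (Real.sqrt (1 + 2 * bb' Y t))) (g := fun _ => π / 2)
      (cg.intervalIntegrable _ _) intervalIntegrable_const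
    rw [e2, i1]
    simp only [intervalIntegral.integral_const, smul_eq_mul]
    ring
  have e3 := H.total.1
  constructor
  · rw [e1]
    nlinarith
  · intro h0
    rw [e1] at h0
    by_contra hcon
    push Not at hcon
    nlinarith

end

/-- All the leaves are conics of one pencil. -/
theorem rigidity (h : IsCollar Y) (hp : ∀ p : ℂ, ‖p‖ = 1 → ProjectiveInvolution Y p)
    (hs : IsSymmetric Y) (h4 : OuterLeafFourPeriodic Y) :
    ∃ ζ : ℂ, ‖ζ‖ < 1 ∧ ∀ c, 0 ≤ c → c ≤ 1 → ∃ s : ℝ, 0 ≤ s ∧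
      {z : ℂ | Y z = c} = {z : ℂ | normSq z - 1 = s * (normSq z - (ζ * z ^ 2).re)} := by
  obtain ⟨v, hv⟩ := exists_v h hp
  have hpos := sum_pos h hs h4 hv
  obtain ⟨n1, n2⟩ := NN_one_le h hs h4 hv
  have H := bData h hs h4
  obtain ⟨Θ₀, κ, hκ, hrel⟩ := H.total.2 (n2 (NN_nonneg h hv hpos one_pos le_rfl))
  have hκ2 := abs_lt.1 hκ
  -- the structure function
  have hvQ : ∀ Θ, v Θ * (1 - κ * Real.cos (2 * (Θ - Θ₀))) = -2 * κ * Real.sin (2 * (Θ - Θ₀)) := by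
    intro Θ
    have e1 := hrel Θ
    have hS := S_pos h one_pos le_rfl Θ
    rw [show 2 * Θ + 2 * bb Y Θ - 2 * Θ₀ = 2 * (Θ - Θ₀) + 2 * bb Y Θ by ring, Real.cos_add,
      sin_two_bb h hs h4 hv, cos_two_bb h hs h4 hv] at e1
    rw [v_formula h hs h4 hv]
    have h5 : (1 + S Y 1 1 Θ ^ 2) ≠ 0 := by positivity
    field_simp at e1
    field_simp
    linarith
  have hQpos : ∀ Θ, 0 < 1 - κ * Real.cos (2 * (Θ - Θ₀)) := by
    intro Θ
    have h5 : |κ * Real.cos (2 * (Θ - Θ₀))| < 1 := by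
      rw [abs_mul]
      have := Real.abs_cos_le_one (2 * (Θ - Θ₀))
      calc |κ| * |Real.cos (2 * (Θ - Θ₀))| ≤ |κ| * 1 :=
            mul_le_mul_of_nonneg_left this (abs_nonneg _)
        _ < 1 := by rw [mul_one]; exact hκ
    have := (abs_lt.1 h5).2
    linarith
  set ζ : ℂ := κ * exp ((-(2 * Θ₀) : ℝ) * I) with hζ
  have hζn : ‖ζ‖ < 1 := by
    rw [hζ, norm_mul, norm_exp_ofReal_mul_I, mul_one, norm_real, Real.norm_eq_abs]
    exact hκ
  -- positivity of the second form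
  have hform : ∀ z : ℂ, z ≠ 0 → 0 < normSq z - (ζ * z ^ 2).re := by
    intro z hz
    have h5 : (ζ * z ^ 2).re ≤ ‖ζ‖ * ‖z‖ ^ 2 := by
      refine (re_le_norm _).trans ?_
      rw [norm_mul, norm_pow]
    have h6 : 0 < ‖z‖ ^ 2 := by have := norm_pos_iff.2 hz; positivity
    rw [normSq_eq_norm_sq]
    nlinarith
  -- the second form on tangent lines
  have hP : ∀ Θ s : ℝ, normSq (P Θ s) - (ζ * P Θ s ^ 2).re =
      (1 - κ * Real.cos (2 * (Θ - Θ₀))) * (1 - s ^ 2) + 2 * s ^ 2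
        + 2 * s * κ * Real.sin (2 * (Θ - Θ₀)) := by
    intro Θ s
    have e1 : ζ * P Θ s ^ 2 = (κ : ℂ) * (exp ((2 * (Θ - Θ₀) : ℝ) * I) * (1 + s * I) ^ 2) := by
      rw [hζ, P, mul_pow, ← exp_nat_mul]
      have : exp ((2 * (Θ - Θ₀) : ℝ) * I) = exp ((-(2 * Θ₀) : ℝ) * I) *
          exp (((2 : ℕ) : ℂ) * ((Θ : ℂ) * I)) := by
        rw [← exp_add]; congr 1; push_cast; ring
      rw [this]; ring
    rw [e1, normSq_P, exp_mul_I, ← ofReal_cos, ← ofReal_sin]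
    simp only [pow_two, add_re, add_im, mul_re, mul_im, ofReal_re, ofReal_im, I_re, I_im, one_re,
      one_im]
    ring
  -- the constants of the leaves
  have hK : ∀ c, 0 < c → c ≤ 1 → ∃ k : ℝ, ∀ Θ,
      (1 - κ * Real.cos (2 * (Θ - Θ₀))) * (xx Y c Θ * yy Y c Θ - 1) = k := by
    intro c h0 h1
    rcases eq_or_lt_of_le h1 with h5 | h5
    · refine ⟨0, fun Θ => ?_⟩
      rw [h5, xy_one h hs h4]
      unfold yy
      have hS := (S_pos h one_pos le_rfl Θ).ne'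
      rw [mul_inv_cancel₀ hS]; ring
    · set K : ℝ → ℝ := fun Θ =>
        (1 - κ * Real.cos (2 * (Θ - Θ₀))) * (xx Y c Θ * yy Y c Θ - 1) with hKdef
      have hd : ∀ Θ, HasDerivAt K 0 Θ := by
        intro Θ
        have d1 : HasDerivAt (fun Θ => 1 - κ * Real.cos (2 * (Θ - Θ₀)))
            (2 * κ * Real.sin (2 * (Θ - Θ₀))) Θ := by
          have e1 : HasDerivAt (fun Θ : ℝ => 2 * (Θ - Θ₀)) 2 Θ := by
            simpa using ((hasDerivAt_id Θ).sub_const Θ₀).const_mul 2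
          refine ((e1.cos.const_mul κ).const_sub 1).congr_deriv ?_
          ring
        have d2 := ((xx_hasDerivAt_right h h0 h1 Θ).mul (yy_hasDerivAt_right h h0 h1 Θ)).sub_const 1
        refine (d1.mul d2).congr_deriv ?_
        have e2 := equality h hv hpos n1 h0 h5 Θ
        have e3 := hv c Θ h0 h1
        have e4 := hvQ Θ
        simp only [Pi.mul_apply]
        set x := xx Y c Θ
        set y := yy Y c Θ
        set Q := 1 - κ * Real.cos (2 * (Θ - Θ₀))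
        have e5 : v Θ = y - x := by linarith
        rw [e5] at e4
        linear_combination (x * y - 1) * e4 - Q * e2
      refine ⟨K 0, fun Θ => ?_⟩
      exact is_const_of_deriv_eq_zero (fun Θ => (hd Θ).differentiableAt)
        (fun Θ => (hd Θ).deriv) Θ 0
  refine ⟨ζ, hζn, ?_⟩
  intro c h0 h1
  rcases eq_or_lt_of_le h0 with hc0 | hc0
  · refine ⟨0, le_rfl, ?_⟩
    ext z
    simp only [mem_ofPred_eq, ← hc0, zero_mul]
    rw [h.leaf_zero, normSq_eq_norm_sq]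
    constructor
    · intro h5; rw [h5]; norm_num
    · intro h5
      have : ‖z‖ ^ 2 = 1 := by linarith
      exact (pow_eq_one_iff_of_nonneg (norm_nonneg z) (by norm_num)).1 this
  obtain ⟨k, hk⟩ := hK c hc0 h1
  -- the forms on the leaf
  have hleaf : ∀ Θ, normSq (Z Y (-1) c Θ) - (ζ * Z Y (-1) c Θ ^ 2).re =
      S Y (-1) c Θ ^ 2 * (k + 2) := by
    intro Θ
    have hS := (S_neg h hc0 h1 Θ).ne
    have e3 := hv c Θ hc0 h1
    have e4 := hvQ Θ
    have e5 := hk Θ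
    unfold Z
    rw [hP, ← e5, e3]
    unfold xx at *
    set s := S Y (-1) c Θ
    set Q := 1 - κ * Real.cos (2 * (Θ - Θ₀))
    field_simp
    linear_combination s * e4
  have hk2 : 0 < k + 2 := by
    have e1 := hleaf 0
    have hS := (S_neg h hc0 h1 0).ne
    have hz : Z Y (-1) c 0 ≠ 0 := by
      intro hcon
      have h5 : Y (Z Y (-1) c 0) = c := Y_Z h hc0 h1 0 (by norm_num)
      rw [hcon] at h5
      have h6 : Y (0 : ℂ) < 0 := (h.inner 0).2 (by simp)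
      linarith
    have e2 := hform _ hz
    rw [e1] at e2
    exact (pos_iff_pos_of_mul_pos e2).1 (by positivity)
  refine ⟨1 / (k + 2), by positivity, ?_⟩
  ext z
  simp only [mem_ofPred_eq]
  constructor
  · intro hz
    have hz1 : 1 < ‖z‖ := h.pos_iff.1 (by rw [hz]; exact hc0)
    have hsq : 0 ≤ ‖z‖ ^ 2 - 1 := by nlinarith
    obtain ⟨Θ, hΘ⟩ := exists_eq_P hz1 (-Real.sqrt (‖z‖ ^ 2 - 1)) (by
      rw [neg_sq, Real.sq_sqrt hsq])
    have hlt : 0 < Real.sqrt (‖z‖ ^ 2 - 1) := Real.sqrt_pos.2 (by nlinarith)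
    have hS : -Real.sqrt (‖z‖ ^ 2 - 1) = S Y (-1) c Θ :=
      S_unique h (by norm_num) hc0 h1 (by linarith) (by rw [← hΘ, hz])
    have hzZ : z = Z Y (-1) c Θ := by rw [hΘ, hS, Z]
    rw [hzZ, hleaf, Z, normSq_P]
    field_simp
    ring
  · intro hz
    have hz0 : z ≠ 0 := by
      intro hcon
      rw [hcon] at hz
      simp at hz
    have hf := hform z hz0
    have hz1 : 1 < ‖z‖ ^ 2 := by
      have : 0 < 1 / (k + 2) * (normSq z - (ζ * z ^ 2).re) := by positivity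
      rw [← hz, normSq_eq_norm_sq] at this
      linarith
    have hz2 : 1 < ‖z‖ := by nlinarith [norm_nonneg z]
    have hsq : 0 < ‖z‖ ^ 2 - 1 := by linarith
    obtain ⟨Θ, hΘ⟩ := exists_eq_P hz2 (-Real.sqrt (‖z‖ ^ 2 - 1)) (by
      rw [neg_sq, Real.sq_sqrt hsq.le])
    set τ := Real.sqrt (‖z‖ ^ 2 - 1) with hτ
    have hτ0 : 0 < τ := Real.sqrt_pos.2 hsq
    -- compare with the leaf point on the same half line
    have hS := S_neg h hc0 h1 Θ
    have e1 := hleaf Θ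
    rw [Z, hP] at e1
    have e2 : normSq z - (ζ * z ^ 2).re = τ ^ 2 * (k + 2) := by
      have h5 : normSq z - 1 = τ ^ 2 := by
        rw [normSq_eq_norm_sq, hτ, Real.sq_sqrt hsq.le]
      rw [h5] at hz
      field_simp at hz
      linarith
    rw [hΘ, hP] at e2
    set s := S Y (-1) c Θ with hs'
    set Q := 1 - κ * Real.cos (2 * (Θ - Θ₀)) with hQ
    set W := κ * Real.sin (2 * (Θ - Θ₀)) with hW
    have hQp := hQpos Θ
    have hy := yy_pos h hc0 h1 Θ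
    have e3 := hv c Θ hc0 h1
    have e4 := hvQ Θ
    -- (s + τ) * (stuff) = 0
    have e5 : (s + τ) * (Q * (τ - s) - 2 * (s * τ) * W * (-1)) = 0 := by
      have f1 : Q * (1 - s ^ 2) + 2 * s ^ 2 + 2 * s * W = s ^ 2 * (k + 2) := by
        rw [hW]; linarith
      have f2 : Q * (1 - τ ^ 2) + 2 * τ ^ 2 + 2 * (-τ) * W = τ ^ 2 * (k + 2) := by
        rw [hW]; linarith
      linear_combination τ ^ 2 * f1 - s ^ 2 * f2
    rcases mul_eq_zero.1 e5 with h6 | h6
    · have h7 : -τ = s := by linarith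
      rw [hΘ, h7]
      exact Y_Z h hc0 h1 Θ (by norm_num)
    · exfalso
      -- Q (τ - s) + 2 s τ W = 0 contradicts y > 0
      have h8 : yy Y c Θ = -s⁻¹ + v Θ := by rw [e3]; rfl
      rw [h8] at hy
      have h9 : v Θ * Q = -2 * W := by rw [hW]; linarith
      have h10 : 0 < (-s⁻¹ + v Θ) * Q * (-s) := by
        have : 0 < -s := by linarith
        positivity
      have h11 : (-s⁻¹ + v Θ) * Q * (-s) = Q + 2 * W * s := by
        have hsn : s ≠ 0 := hS.ne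
        have : (-s⁻¹ + v Θ) * Q * (-s) = Q * (s⁻¹ * s) - (v Θ * Q) * s := by ring
        rw [this, inv_mul_cancel₀ hsn, h9]; ring
      rw [h11] at h10
      have h12 : Q * (τ - s) + 2 * (s * τ) * W = (Q + 2 * W * s) * τ + Q * (-s) := by ring
      have h13 : 0 < (Q + 2 * W * s) * τ + Q * (-s) := by
        have : 0 < -s := by linarith
        positivity
      linarith

end Pool.Agent.H719R2.PIB
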