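import Mathlib

/-!
# The reverse inequality for functions with a four periodic structure

This is the statement that, in de Sitter space, a closed space-like curve which is symmetric with
respect to the antipodal map has length at most `2 π`, with equality for geodesics only.
-/

open Set Filter Topology MeasureTheory
open scoped Real

namespace Pool.Agent.H719R2.PIB

/-- The algebraic core of the reverse inequality. -/
lemma alg_core {a e p q r u : ℝ} (ha : 0 < a) (hea : e ^ 2 < a ^ 2) (hr : 0 ≤ r)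
    (hr2 : r ^ 2 = a ^ 2 - e ^ 2) (hu : 0 ≤ u) (hu2 : 4 * u ^ 2 = p ^ 2 - q ^ 2)
    (hq1 : -p < q) (hq2 : q < p) :
    2 * u * r ≤ a * p - e * q ∧ (a * p - e * q ≤ 2 * u * r → e * p = a * q) := by
  have hea2 : |e| < a := by
    apply lt_of_pow_lt_pow_left₀ 2 ha.le
    rw [sq_abs]; exact hea
  have hea3 := abs_lt.1 hea2
  have hnn : 0 < a * p - e * q := by
    have h1 : |e * q| ≤ |e| * |q| := (abs_mul e q).le
    have h2 : |q| < p := abs_lt.2 ⟨hq1, hq2⟩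
    have h3 : |e| * |q| < a * p := by
      have := mul_lt_mul'' hea2 h2 (abs_nonneg e) (abs_nonneg q)
      exact this
    have h4 := (abs_le.1 h1).2
    linarith
  have hid : (a * p - e * q) ^ 2 - (2 * u * r) ^ 2 = (e * p - a * q) ^ 2 := by
    have : (2 * u * r) ^ 2 = (4 * u ^ 2) * r ^ 2 := by ring
    rw [this, hu2, hr2]; ring
  have h2ur : 0 ≤ 2 * u * r := by positivity
  constructor
  · by_contra hcon
    push Not at hcon
    have h5 : (a * p - e * q) ^ 2 < (2 * u * r) ^ 2 := pow_lt_pow_left₀ hcon hnn.le (by norm_num)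
    have h6 : 0 ≤ (e * p - a * q) ^ 2 := sq_nonneg _
    linarith
  · intro hle
    have h5 : (a * p - e * q) ^ 2 ≤ (2 * u * r) ^ 2 := pow_le_pow_left₀ hnn.le hle 2
    have h6 : (e * p - a * q) ^ 2 = 0 := le_antisymm (by linarith) (sq_nonneg _)
    have h7 := pow_eq_zero_iff (n := 2) (by norm_num) |>.1 h6
    linarith

/-- Growth of the de Sitter distance to a point along a space-like curve. -/
lemma dist_deriv {ψ χ : ℝ → ℝ} {p q Θ u : ℝ} (dψ : HasDerivAt ψ p Θ) (dχ : HasDerivAt χ q Θ)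
    (a1 : 0 < ψ Θ - χ Θ) (a2 : ψ Θ - χ Θ < π) (a3 : 0 < ψ Θ + χ Θ) (a4 : ψ Θ + χ Θ < π)
    (hcp : 0 < Real.cos (χ Θ)) (hu : 0 ≤ u) (hu2 : 4 * u ^ 2 = p ^ 2 - q ^ 2)
    (hq1 : -p < q) (hq2 : q < p) :
    ∃ d : ℝ, HasDerivAt (fun Θ => Real.arccos (Real.cos (ψ Θ) / Real.cos (χ Θ))) d Θ ∧
      2 * u / Real.cos (χ Θ) ≤ d ∧
      (d ≤ 2 * u / Real.cos (χ Θ) →
        Real.cos (ψ Θ) * Real.sin (χ Θ) * p = Real.sin (ψ Θ) * Real.cos (χ Θ) * q) := by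
  have hsψ : 0 < Real.sin (ψ Θ) := Real.sin_pos_of_pos_of_lt_pi (by linarith) (by linarith)
  set a := Real.sin (ψ Θ) * Real.cos (χ Θ) with ha
  set e := Real.cos (ψ Θ) * Real.sin (χ Θ) with he
  have hapos : 0 < a := mul_pos hsψ hcp
  have hae : 0 < a ^ 2 - e ^ 2 := by
    have : a ^ 2 - e ^ 2 = Real.sin (ψ Θ - χ Θ) * Real.sin (ψ Θ + χ Θ) := by
      rw [Real.sin_sub, Real.sin_add, ha, he]; ring
    rw [this]
    exact mul_pos (Real.sin_pos_of_pos_of_lt_pi a1 a2) (Real.sin_pos_of_pos_of_lt_pi a3 a4)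
  have hcc : Real.cos (χ Θ) ^ 2 - Real.cos (ψ Θ) ^ 2 = a ^ 2 - e ^ 2 := by
    rw [ha, he, mul_pow, mul_pow, Real.sin_sq, Real.sin_sq]; ring
  set q₀ := Real.cos (ψ Θ) / Real.cos (χ Θ) with hq
  have hq2' : 1 - q₀ ^ 2 = (a ^ 2 - e ^ 2) / Real.cos (χ Θ) ^ 2 := by
    rw [← hcc, hq]; field_simp
  have hq2pos : 0 < 1 - q₀ ^ 2 := by rw [hq2']; positivity
  have hqne1 : q₀ ≠ 1 := by intro hcon; rw [hcon] at hq2pos; norm_num at hq2pos
  have hqne2 : q₀ ≠ -1 := by intro hcon; rw [hcon] at hq2pos; norm_num at hq2pos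
  have dq : HasDerivAt (fun Θ => Real.cos (ψ Θ) / Real.cos (χ Θ))
      (-(a * p - e * q) / Real.cos (χ Θ) ^ 2) Θ := by
    refine (dψ.cos.div dχ.cos hcp.ne').congr_deriv ?_
    rw [ha, he]; ring
  have dσ := (Real.hasDerivAt_arccos hqne2 hqne1).comp Θ dq
  have hsq : Real.sqrt (1 - q₀ ^ 2) = Real.sqrt (a ^ 2 - e ^ 2) / Real.cos (χ Θ) := by
    rw [hq2', Real.sqrt_div hae.le, Real.sqrt_sq hcp.le]
  set r := Real.sqrt (a ^ 2 - e ^ 2) with hr
  have hrpos : 0 < r := Real.sqrt_pos.2 hae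
  have hr2 : r ^ 2 = a ^ 2 - e ^ 2 := Real.sq_sqrt hae.le
  have hval : -(1 / Real.sqrt (1 - q₀ ^ 2)) * (-(a * p - e * q) / Real.cos (χ Θ) ^ 2)
      = (a * p - e * q) / (Real.cos (χ Θ) * r) := by
    rw [hsq]; field_simp
  obtain ⟨h1, h2⟩ := alg_core hapos (by linarith) hrpos.le hr2 hu hu2 hq1 hq2
  refine ⟨(a * p - e * q) / (Real.cos (χ Θ) * r), ?_, ?_, ?_⟩
  · rw [← hval]; exact dσ
  · rw [div_le_div_iff₀ hcp (mul_pos hcp hrpos)]
    nlinarith [mul_le_mul_of_nonneg_right h1 hcp.le]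
  · intro hle
    apply h2
    rw [div_le_div_iff₀ (mul_pos hcp hrpos) hcp] at hle
    have h3 : (a * p - e * q) * Real.cos (χ Θ) ≤ (2 * u * r) * Real.cos (χ Θ) := by linarith
    exact le_of_mul_le_mul_right h3 hcp

/-- The data of the outer leaf. -/
structure BData (b b' : ℝ → ℝ) : Prop where
  hb : ∀ Θ, HasDerivAt b (b' Θ) Θ
  hb' : Continuous b'
  pos : ∀ Θ, 0 < b Θ
  lt : ∀ Θ, b Θ < π / 2
  slope : ∀ Θ, 0 < 1 + 2 * b' Θ
  per : ∀ Θ, b (Θ + π) = b Θ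
  rel : ∀ Θ, b (Θ + 2 * b Θ) = π / 2 - b Θ

namespace BData

variable {b b' : ℝ → ℝ} (H : BData b b')
include H

lemma cont : Continuous b := continuous_iff_continuousAt.2 fun Θ => (H.hb Θ).continuousAt

lemma F_hasDerivAt (Θ : ℝ) : HasDerivAt (fun Θ => Θ + 2 * b Θ) (1 + 2 * b' Θ) Θ :=
  (hasDerivAt_id Θ).add ((H.hb Θ).const_mul 2)

lemma F_strictMono : StrictMono (fun Θ => Θ + 2 * b Θ) :=
  strictMono_of_deriv_pos fun Θ => by rw [(H.F_hasDerivAt Θ).deriv]; exact H.slope Θ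

lemma rel' (Θ : ℝ) : (1 + 2 * b' (Θ + 2 * b Θ)) * (1 + 2 * b' Θ) = 1 := by
  have e1 : HasDerivAt (fun Θ => b (Θ + 2 * b Θ)) (b' (Θ + 2 * b Θ) * (1 + 2 * b' Θ)) Θ :=
    (H.hb (Θ + 2 * b Θ)).comp Θ (H.F_hasDerivAt Θ)
  have e2 : HasDerivAt (fun Θ => b (Θ + 2 * b Θ)) (-b' Θ) Θ := by
    have : (fun Θ => b (Θ + 2 * b Θ)) = fun Θ => π / 2 - b Θ := by
      ext t; exact H.rel t
    rw [this]
    exact (H.hb Θ).const_sub (π / 2)
  have := e1.unique e2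
  linarith

lemma sin_pos (Θ : ℝ) : 0 < Real.sin (2 * b Θ) :=
  Real.sin_pos_of_pos_of_lt_pi (by linarith [H.pos Θ]) (by linarith [H.lt Θ])

lemma b'_per (Θ : ℝ) : b' (Θ + π) = b' Θ := by
  have e1 : HasDerivAt (fun Θ => b (Θ + π)) (b' (Θ + π)) Θ := by
    have := (H.hb (Θ + π)).comp Θ ((hasDerivAt_id Θ).add_const π)
    simpa [Function.comp_def] using this
  have e2 : HasDerivAt (fun Θ => b (Θ + π)) (b' Θ) Θ := by
    have : (fun Θ => b (Θ + π)) = b := by ext t; exact H.per t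
    rw [this]; exact H.hb Θ
  exact e1.unique e2

lemma FF (Θ : ℝ) : (Θ + 2 * b Θ) + 2 * b (Θ + 2 * b Θ) = Θ + π := by
  rw [H.rel]; ring

/-- There is a parameter with `b = π / 4`. -/
lemma exists_quarter : ∃ Θ, b Θ = π / 4 := by
  rcases le_total (b 0) (π / 4) with h | h
  · have h2 : π / 4 ≤ b (0 + 2 * b 0) := by rw [H.rel]; linarith
    obtain ⟨t, _, ht⟩ := intermediate_value_Icc (by linarith [H.pos 0] : (0 : ℝ) ≤ 0 + 2 * b 0)
      H.cont.continuousOn (show π / 4 ∈ Icc (b 0) (b (0 + 2 * b 0)) from ⟨h, h2⟩)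
    exact ⟨t, ht⟩
  · have h2 : b (0 + 2 * b 0) ≤ π / 4 := by rw [H.rel]; linarith
    obtain ⟨t, _, ht⟩ := intermediate_value_Icc' (by linarith [H.pos 0] : (0 : ℝ) ≤ 0 + 2 * b 0)
      H.cont.continuousOn (show π / 4 ∈ Icc (b (0 + 2 * b 0)) (b 0) from ⟨h2, h⟩)
    exact ⟨t, ht⟩

/-- The length integrand. -/
lemma len_cont : Continuous (fun Θ => 2 * Real.sqrt (1 + 2 * b' Θ) / Real.sin (2 * b Θ)) := by
  have e1 : Continuous (fun Θ => Real.sin (2 * b Θ)) :=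
    Real.continuous_sin.comp (continuous_const.mul H.cont)
  have e2 : Continuous (fun Θ => 2 * Real.sqrt (1 + 2 * b' Θ)) :=
    continuous_const.mul (Real.continuous_sqrt.comp (continuous_const.add
      (continuous_const.mul H.hb')))
  exact e2.div e1 (fun Θ => (H.sin_pos Θ).ne')

/-- The main computation on one quarter: inequality and equality case. -/
theorem quarter {Θ₀ : ℝ} (h0 : b Θ₀ = π / 4) :
    (∫ t in Θ₀..(Θ₀ + π / 2), 2 * Real.sqrt (1 + 2 * b' t) / Real.sin (2 * b t)) ≤ π ∧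
    (π ≤ (∫ t in Θ₀..(Θ₀ + π / 2), 2 * Real.sqrt (1 + 2 * b' t) / Real.sin (2 * b t)) →
      ∀ Θ ∈ Ioo Θ₀ (Θ₀ + π / 2),
        Real.cos (2 * Θ + 2 * b Θ - 2 * Θ₀ - π / 2) * Real.sin (2 * b Θ - π / 2) * (2 + 2 * b' Θ)
          = Real.sin (2 * Θ + 2 * b Θ - 2 * Θ₀ - π / 2) * Real.cos (2 * b Θ - π / 2)
            * (2 * b' Θ)) := by
  have hpi := Real.pi_pos
  set ψ : ℝ → ℝ := fun Θ => 2 * Θ + 2 * b Θ - 2 * Θ₀ - π / 2 with hψ
  set χ : ℝ → ℝ := fun Θ => 2 * b Θ - π / 2 with hχ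
  have hF0 : Θ₀ + 2 * b Θ₀ = Θ₀ + π / 2 := by rw [h0]; ring
  have h1 : b (Θ₀ + π / 2) = π / 4 := by
    have := H.rel Θ₀
    rw [hF0, h0] at this
    rw [this]; ring
  have hF1 : (Θ₀ + π / 2) + 2 * b (Θ₀ + π / 2) = Θ₀ + π := by rw [h1]; ring
  -- ranges
  have r1 : ∀ Θ ∈ Ioo Θ₀ (Θ₀ + π / 2), 0 < ψ Θ - χ Θ ∧ ψ Θ - χ Θ < π := by
    intro Θ hΘ
    simp only [hψ, hχ]
    constructor <;> linarith [hΘ.1, hΘ.2]
  have r2 : ∀ Θ ∈ Ioo Θ₀ (Θ₀ + π / 2), 0 < ψ Θ + χ Θ ∧ ψ Θ + χ Θ < π := by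
    intro Θ hΘ
    have e1 := H.F_strictMono hΘ.1
    have e2 := H.F_strictMono hΘ.2
    simp only at e1 e2
    rw [hF0] at e1
    rw [hF1] at e2
    simp only [hψ, hχ]
    constructor <;> linarith
  have hcosχ : ∀ Θ, Real.cos (χ Θ) = Real.sin (2 * b Θ) := by
    intro Θ; simp only [hχ]; exact Real.cos_sub_pi_div_two _
  have hcosχpos : ∀ Θ, 0 < Real.cos (χ Θ) := fun Θ => by rw [hcosχ]; exact H.sin_pos Θ
  have dψ : ∀ Θ, HasDerivAt ψ (2 + 2 * b' Θ) Θ := by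
    intro Θ
    have := ((((hasDerivAt_id Θ).const_mul 2).add ((H.hb Θ).const_mul 2)).sub_const
      (2 * Θ₀)).sub_const (π / 2)
    refine this.congr_deriv ?_
    ring
  have dχ : ∀ Θ, HasDerivAt χ (2 * b' Θ) Θ := fun Θ => ((H.hb Θ).const_mul 2).sub_const (π / 2)
  have cψ : Continuous ψ := continuous_iff_continuousAt.2 fun Θ => (dψ Θ).continuousAt
  have cχ : Continuous χ := continuous_iff_continuousAt.2 fun Θ => (dχ Θ).continuousAt
  -- the distance function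
  set σ : ℝ → ℝ := fun Θ => Real.arccos (Real.cos (ψ Θ) / Real.cos (χ Θ)) with hσ
  have cσ : Continuous σ := Real.continuous_arccos.comp
    ((Real.continuous_cos.comp cψ).div (Real.continuous_cos.comp cχ) fun Θ => (hcosχpos Θ).ne')
  have s0 : σ Θ₀ = 0 := by
    simp only [hσ, hψ, hχ, h0]
    rw [show 2 * Θ₀ + 2 * (π / 4) - 2 * Θ₀ - π / 2 = 0 by ring,
      show 2 * (π / 4) - π / 2 = 0 by ring]
    simp
  have s1 : σ (Θ₀ + π / 2) = π := by
    simp only [hσ, hψ, hχ, h1]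
    rw [show 2 * (Θ₀ + π / 2) + 2 * (π / 4) - 2 * Θ₀ - π / 2 = π by ring,
      show 2 * (π / 4) - π / 2 = 0 by ring]
    simp
  -- derivative of the distance function
  have key : ∀ Θ ∈ Ioo Θ₀ (Θ₀ + π / 2), ∃ d : ℝ, HasDerivAt σ d Θ ∧
      2 * Real.sqrt (1 + 2 * b' Θ) / Real.sin (2 * b Θ) ≤ d ∧
      (d ≤ 2 * Real.sqrt (1 + 2 * b' Θ) / Real.sin (2 * b Θ) →
        Real.cos (ψ Θ) * Real.sin (χ Θ) * (2 + 2 * b' Θ)
          = Real.sin (ψ Θ) * Real.cos (χ Θ) * (2 * b' Θ)) := by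
    intro Θ hΘ
    obtain ⟨a1, a2⟩ := r1 Θ hΘ
    obtain ⟨a3, a4⟩ := r2 Θ hΘ
    have hs := H.slope Θ
    have hu2 : 4 * Real.sqrt (1 + 2 * b' Θ) ^ 2 = (2 + 2 * b' Θ) ^ 2 - (2 * b' Θ) ^ 2 := by
      rw [Real.sq_sqrt hs.le]; ring
    rw [← hcosχ]
    exact dist_deriv (dψ Θ) (dχ Θ) a1 a2 a3 a4 (hcosχpos Θ) (Real.sqrt_nonneg _) hu2
      (by linarith) (by linarith)
  -- the difference is monotone
  set ℓ : ℝ → ℝ := fun t => 2 * Real.sqrt (1 + 2 * b' t) / Real.sin (2 * b t) with hℓ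
  have cℓ : Continuous ℓ := H.len_cont
  set D : ℝ → ℝ := fun Θ => σ Θ - ∫ t in Θ₀..Θ, ℓ t with hD
  have dI : ∀ Θ, HasDerivAt (fun Θ => ∫ t in Θ₀..Θ, ℓ t) (ℓ Θ) Θ := fun Θ =>
    intervalIntegral.integral_hasDerivAt_right (cℓ.intervalIntegrable _ _)
      cℓ.aestronglyMeasurable.stronglyMeasurableAtFilter cℓ.continuousAt
  have dD : ∀ Θ d, HasDerivAt σ d Θ → HasDerivAt D (d - ℓ Θ) Θ := fun Θ d hd => hd.sub (dI Θ)
  have cD : Continuous D := cσ.sub (continuous_iff_continuousAt.2 fun Θ => (dI Θ).continuousAt)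
  have hmono : MonotoneOn D (Icc Θ₀ (Θ₀ + π / 2)) := by
    refine monotoneOn_of_deriv_nonneg (convex_Icc _ _) cD.continuousOn ?_ ?_
    · intro Θ hΘ
      rw [interior_Icc] at hΘ
      obtain ⟨d, hd, -⟩ := key Θ hΘ
      exact (dD Θ d hd).differentiableAt.differentiableWithinAt
    · intro Θ hΘ
      rw [interior_Icc] at hΘ
      obtain ⟨d, hd, hle, -⟩ := key Θ hΘ
      rw [(dD Θ d hd).deriv]
      have : ℓ Θ ≤ d := hle
      linarith
  have hD0 : D Θ₀ = 0 := by simp [hD, s0]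
  have hD1 : D (Θ₀ + π / 2) = π - ∫ t in Θ₀..(Θ₀ + π / 2), ℓ t := by simp [hD, s1]
  have hle : Θ₀ ≤ Θ₀ + π / 2 := by linarith
  have m1 := hmono ⟨le_rfl, hle⟩ ⟨hle, le_rfl⟩ hle
  rw [hD0, hD1] at m1
  refine ⟨by linarith, ?_⟩
  intro hge Θ hΘ
  obtain ⟨d, hd, h2, h3⟩ := key Θ hΘ
  apply h3
  -- D is constant on the interval
  have hconst : ∀ t ∈ Icc Θ₀ (Θ₀ + π / 2), D t = 0 := by
    intro t ht
    have e1 := hmono ⟨le_rfl, hle⟩ ht ht.1
    have e2 := hmono ht ⟨hle, le_rfl⟩ ht.2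
    rw [hD0] at e1
    rw [hD1] at e2
    linarith
  have hd2 : HasDerivAt D 0 Θ := by
    refine (hasDerivAt_const Θ (0 : ℝ)).congr_of_eventuallyEq ?_
    filter_upwards [Ioo_mem_nhds hΘ.1 hΘ.2] with t ht
    exact hconst t ⟨ht.1.le, ht.2.le⟩
  have h5 := (dD Θ d hd).unique hd2
  have h6 : d ≤ ℓ Θ := by linarith
  exact h6

/-- The total length inequality and its equality case. -/
theorem total : (∫ t in (0 : ℝ)..(2 * π), 2 * Real.sqrt (1 + 2 * b' t) / Real.sin (2 * b t))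
      ≤ 4 * π ∧
    (4 * π ≤ (∫ t in (0 : ℝ)..(2 * π), 2 * Real.sqrt (1 + 2 * b' t) / Real.sin (2 * b t)) →
      ∃ Θ₀ κ : ℝ, |κ| < 1 ∧ ∀ Θ, Real.cos (2 * b Θ) = κ * Real.cos (2 * Θ + 2 * b Θ - 2 * Θ₀)) := by
  obtain ⟨Θ₀, h0⟩ := H.exists_quarter
  have hpi := Real.pi_pos
  set ℓ : ℝ → ℝ := fun t => 2 * Real.sqrt (1 + 2 * b' t) / Real.sin (2 * b t) with hℓ
  have cℓ : Continuous ℓ := H.len_cont
  have hii : ∀ a c, IntervalIntegrable ℓ volume a c := fun a c => cℓ.intervalIntegrable _ _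
  have hF0 : Θ₀ + 2 * b Θ₀ = Θ₀ + π / 2 := by rw [h0]; ring
  have h1 : b (Θ₀ + π / 2) = π / 4 := by
    have := H.rel Θ₀
    rw [hF0, h0] at this
    rw [this]; ring
  have hper : Function.Periodic ℓ π := by
    intro t
    simp only [hℓ, H.per, H.b'_per]
  have hper2 : Function.Periodic ℓ (2 * π) := by
    have := hper.nat_mul 2
    simpa using this
  -- the integral over [Θ₀, Θ₀ + π]
  have q1 := H.quarter h0
  have q2 := H.quarter h1
  have e1 : Θ₀ + π / 2 + π / 2 = Θ₀ + π := by ring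
  rw [e1] at q2
  have hsplit : (∫ t in Θ₀..(Θ₀ + π / 2), ℓ t) + (∫ t in (Θ₀ + π / 2)..(Θ₀ + π), ℓ t)
      = ∫ t in Θ₀..(Θ₀ + π), ℓ t :=
    intervalIntegral.integral_add_adjacent_intervals (hii _ _) (hii _ _)
  have htot : (∫ t in (0 : ℝ)..(2 * π), ℓ t) = 2 * ∫ t in Θ₀..(Θ₀ + π), ℓ t := by
    have e2 : (∫ t in (0 : ℝ)..(0 + 2 * π), ℓ t) = ∫ t in Θ₀..(Θ₀ + 2 * π), ℓ t :=
      hper2.intervalIntegral_add_eq 0 Θ₀
    rw [zero_add] at e2
    rw [e2, ← intervalIntegral.integral_add_adjacent_intervals (hii Θ₀ (Θ₀ + π)) (hii _ _)]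
    have e3 : (∫ t in (Θ₀ + π)..(Θ₀ + π + π), ℓ t) = ∫ t in Θ₀..(Θ₀ + π), ℓ t :=
      hper.intervalIntegral_add_eq (Θ₀ + π) Θ₀
    have e4 : Θ₀ + π + π = Θ₀ + 2 * π := by ring
    rw [e4] at e3
    rw [e3]; ring
  have i1 : (∫ t in Θ₀..(Θ₀ + π / 2), ℓ t) ≤ π := q1.1
  have i2 : (∫ t in (Θ₀ + π / 2)..(Θ₀ + π), ℓ t) ≤ π := q2.1
  refine ⟨by rw [htot]; linarith, ?_⟩
  intro hge
  rw [htot] at hge
  have i3 : π ≤ ∫ t in Θ₀..(Θ₀ + π / 2), ℓ t := by linarith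
  have heq := q1.2 i3
  -- the quotient is constant on the quarter
  set ψ : ℝ → ℝ := fun Θ => 2 * Θ + 2 * b Θ - 2 * Θ₀ - π / 2 with hψ
  set χ : ℝ → ℝ := fun Θ => 2 * b Θ - π / 2 with hχ
  have hF1 : (Θ₀ + π / 2) + 2 * b (Θ₀ + π / 2) = Θ₀ + π := by rw [h1]; ring
  have rψ : ∀ Θ ∈ Ioo Θ₀ (Θ₀ + π / 2), 0 < ψ Θ ∧ ψ Θ < π := by
    intro Θ hΘ
    have e1 := H.F_strictMono hΘ.1
    have e2 := H.F_strictMono hΘ.2
    simp only at e1 e2
    rw [hF0] at e1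
    rw [hF1] at e2
    simp only [hψ]
    constructor <;> linarith [hΘ.1, hΘ.2]
  have dψ : ∀ Θ, HasDerivAt ψ (2 + 2 * b' Θ) Θ := by
    intro Θ
    have := ((((hasDerivAt_id Θ).const_mul 2).add ((H.hb Θ).const_mul 2)).sub_const
      (2 * Θ₀)).sub_const (π / 2)
    refine this.congr_deriv ?_
    ring
  have dχ : ∀ Θ, HasDerivAt χ (2 * b' Θ) Θ := fun Θ => ((H.hb Θ).const_mul 2).sub_const (π / 2)
  have cψ : Continuous ψ := continuous_iff_continuousAt.2 fun Θ => (dψ Θ).continuousAt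
  have cχ : Continuous χ := continuous_iff_continuousAt.2 fun Θ => (dχ Θ).continuousAt
  -- a point where ψ = π / 2
  have ψ0 : ψ Θ₀ = 0 := by simp only [hψ, h0]; ring
  have ψ1 : ψ (Θ₀ + π / 2) = π := by simp only [hψ, h1]; ring
  obtain ⟨Θm, hΘm, hψm⟩ := intermediate_value_Ioo (by linarith : Θ₀ ≤ Θ₀ + π / 2)
    cψ.continuousOn (show π / 2 ∈ Ioo (ψ Θ₀) (ψ (Θ₀ + π / 2)) from
      ⟨by rw [ψ0]; positivity, by rw [ψ1]; linarith⟩)
  set κ := Real.sin (χ Θm) with hκ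
  have dquot : ∀ Θ ∈ Ioo Θ₀ (Θ₀ + π / 2),
      HasDerivAt (fun Θ => Real.sin (χ Θ) / Real.sin (ψ Θ)) 0 Θ := by
    intro Θ hΘ
    have hs : Real.sin (ψ Θ) ≠ 0 := (Real.sin_pos_of_pos_of_lt_pi (rψ Θ hΘ).1 (rψ Θ hΘ).2).ne'
    refine ((dχ Θ).sin.div (dψ Θ).sin hs).congr_deriv ?_
    have h5 := heq Θ hΘ
    have h6 : Real.cos (ψ Θ) * Real.sin (χ Θ) * (2 + 2 * b' Θ)
          = Real.sin (ψ Θ) * Real.cos (χ Θ) * (2 * b' Θ) := h5
    rw [div_eq_zero_iff]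
    left
    linarith
  have hconst : ∀ Θ ∈ Ioo Θ₀ (Θ₀ + π / 2), Real.sin (χ Θ) = κ * Real.sin (ψ Θ) := by
    intro Θ hΘ
    have hs : Real.sin (ψ Θ) ≠ 0 := (Real.sin_pos_of_pos_of_lt_pi (rψ Θ hΘ).1 (rψ Θ hΘ).2).ne'
    have h7 : Real.sin (χ Θ) / Real.sin (ψ Θ) = Real.sin (χ Θm) / Real.sin (ψ Θm) := by
      apply (convex_Ioo Θ₀ (Θ₀ + π / 2)).is_const_of_fderivWithin_eq_zero
        (f := fun Θ => Real.sin (χ Θ) / Real.sin (ψ Θ)) (𝕜 := ℝ)
      · intro t ht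
        exact (dquot t ht).differentiableAt.differentiableWithinAt
      · intro t ht
        rw [fderivWithin_eq_fderiv (isOpen_Ioo.uniqueDiffWithinAt ht)
          (dquot t ht).differentiableAt]
        ext
        simp [(dquot t ht).deriv]
      · exact hΘ
      · exact hΘm
    rw [hψm, Real.sin_pi_div_two, div_one] at h7
    rw [← hκ] at h7
    rw [← h7]; field_simp
  -- the relation on the closed quarter
  have hsinψ : ∀ Θ, Real.sin (ψ Θ) = -Real.cos (2 * Θ + 2 * b Θ - 2 * Θ₀) := by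
    intro Θ; simp only [hψ]; exact Real.sin_sub_pi_div_two _
  have hsinχ : ∀ Θ, Real.sin (χ Θ) = -Real.cos (2 * b Θ) := by
    intro Θ; simp only [hχ]; exact Real.sin_sub_pi_div_two _
  set Φ : ℝ → ℝ := fun Θ => Real.cos (2 * b Θ) - κ * Real.cos (2 * Θ + 2 * b Θ - 2 * Θ₀) with hΦ
  have cΦ : Continuous Φ := by
    have := H.cont
    simp only [hΦ]
    fun_prop
  have hopen : ∀ Θ ∈ Ioo Θ₀ (Θ₀ + π / 2), Φ Θ = 0 := by
    intro Θ hΘ
    have h8 := hconst Θ hΘ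
    rw [hsinψ, hsinχ] at h8
    simp only [hΦ]
    linarith
  have hclosed : ∀ Θ ∈ Icc Θ₀ (Θ₀ + π / 2), Φ Θ = 0 := by
    intro Θ hΘ
    have : closure (Ioo Θ₀ (Θ₀ + π / 2)) = Icc Θ₀ (Θ₀ + π / 2) := closure_Ioo (by linarith)
    rw [← this] at hΘ
    have hsub : closure (Ioo Θ₀ (Θ₀ + π / 2)) ⊆ {Θ | Φ Θ = 0} :=
      closure_minimal hopen (isClosed_eq cΦ continuous_const)
    exact hsub hΘ
  have hFΦ : ∀ Θ, Φ (Θ + 2 * b Θ) = -Φ Θ := by
    intro Θ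
    simp only [hΦ, H.rel]
    rw [show 2 * (π / 2 - b Θ) = π - 2 * b Θ by ring,
      show 2 * (Θ + 2 * b Θ) + (π - 2 * b Θ) - 2 * Θ₀ = (2 * Θ + 2 * b Θ - 2 * Θ₀) + π by ring,
      Real.cos_pi_sub, Real.cos_add_pi]
    ring
  have hFper : ∀ Θ, (Θ + π) + 2 * b (Θ + π) = (Θ + 2 * b Θ) + π := by
    intro Θ; rw [H.per]; ring
  have hsecond : ∀ Θ ∈ Icc (Θ₀ + π / 2) (Θ₀ + π), Φ Θ = 0 := by
    intro Θ hΘ
    -- Θ = F (F (Θ - π))
    have h9 := H.FF (Θ - π)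
    rw [sub_add_cancel] at h9
    set t := (Θ - π) + 2 * b (Θ - π) with ht
    have ht1 : Θ₀ ≤ t := by
      have h10 : (Θ₀ - π / 2) + 2 * b (Θ₀ - π / 2) = Θ₀ := by
        have h11 := hFper (Θ₀ - π / 2)
        rw [show Θ₀ - π / 2 + π = Θ₀ + π / 2 by ring, hF1] at h11
        linarith
      have h12 := H.F_strictMono.monotone (show Θ₀ - π / 2 ≤ Θ - π by linarith [hΘ.1])
      rw [h10] at h12
      exact h12
    have ht2 : t ≤ Θ₀ + π / 2 := by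
      have h12 := H.F_strictMono.monotone (show Θ - π ≤ Θ₀ by linarith [hΘ.2])
      rw [hF0] at h12
      exact h12
    have h13 := hFΦ t
    rw [h9, hclosed t ⟨ht1, ht2⟩] at h13
    rw [h13]; ring
  have hΦper : Function.Periodic Φ π := by
    intro Θ
    simp only [hΦ, H.per]
    rw [show 2 * (Θ + π) + 2 * b Θ - 2 * Θ₀ = (2 * Θ + 2 * b Θ - 2 * Θ₀) + 2 * π by ring,
      Real.cos_add_two_pi]
  have hall : ∀ Θ, Φ Θ = 0 := by
    intro Θ
    obtain ⟨t, ht, hte⟩ := hΦper.exists_mem_Ico hpi Θ Θ₀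
    rw [hte]
    rcases le_total t (Θ₀ + π / 2) with h14 | h14
    · exact hclosed t ⟨ht.1, h14⟩
    · exact hsecond t ⟨h14, ht.2.le⟩
  refine ⟨Θ₀, κ, ?_, fun Θ => ?_⟩
  · rw [hκ, abs_lt]
    have h15 : 0 < Real.cos (χ Θm) := by
      simp only [hχ]
      rw [Real.cos_sub_pi_div_two]
      exact H.sin_pos Θm
    have h16 := Real.sin_sq_add_cos_sq (χ Θm)
    constructor <;> nlinarith
  · have := hall Θ
    simp only [hΦ] at this
    linarith

/-- Symmetrisation of the arctangent integral. -/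
theorem arctan_integral :
    (∫ t in (0 : ℝ)..(2 * π), 2 * Real.sqrt (1 + 2 * b' t) / Real.sin (2 * b t) *
      Real.arctan (Real.sqrt (1 + 2 * b' t)))
    = π / 4 * ∫ t in (0 : ℝ)..(2 * π), 2 * Real.sqrt (1 + 2 * b' t) / Real.sin (2 * b t) := by
  set ℓ : ℝ → ℝ := fun t => 2 * Real.sqrt (1 + 2 * b' t) / Real.sin (2 * b t) with hℓ
  set g : ℝ → ℝ := fun t => ℓ t * Real.arctan (Real.sqrt (1 + 2 * b' t)) with hg
  have cℓ : Continuous ℓ := H.len_cont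
  have cu : Continuous (fun t => Real.sqrt (1 + 2 * b' t)) :=
    Real.continuous_sqrt.comp (continuous_const.add (continuous_const.mul H.hb'))
  have cg : Continuous g := cℓ.mul (Real.continuous_arctan.comp cu)
  have hgper : Function.Periodic g (2 * π) := by
    have h1 : Function.Periodic g π := by
      intro t
      simp only [hg, hℓ, H.per, H.b'_per]
    have := h1.nat_mul 2
    simpa using this
  have h2 := intervalIntegral.integral_comp_mul_deriv (a := 0) (b := 2 * π)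
    (f := fun Θ => Θ + 2 * b Θ) (f' := fun Θ => 1 + 2 * b' Θ) (g := g)
    (fun Θ _ => H.F_hasDerivAt Θ)
    (continuous_const.add (continuous_const.mul H.hb')).continuousOn cg
  have hend : (2 * π) + 2 * b (2 * π) = (0 + 2 * b 0) + 2 * π := by
    have h3 : b (2 * π) = b 0 := by
      have e1 := H.per π
      have e2 := H.per 0
      rw [zero_add] at e2
      rw [show (2 : ℝ) * π = π + π by ring, e1, e2]
    rw [h3]; ring
  rw [hend, hgper.intervalIntegral_add_eq (0 + 2 * b 0) 0, zero_add] at h2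
  have h3 : ∀ t, (g ∘ fun Θ => Θ + 2 * b Θ) t * (1 + 2 * b' t)
      = π / 2 * ℓ t - g t := by
    intro t
    have hs := H.slope t
    have hrel := H.rel' t
    have hu : 0 < Real.sqrt (1 + 2 * b' t) := Real.sqrt_pos.2 hs
    have hu2 : Real.sqrt (1 + 2 * b' t) ^ 2 = 1 + 2 * b' t := Real.sq_sqrt hs.le
    have hinv : Real.sqrt (1 + 2 * b' (t + 2 * b t)) = (Real.sqrt (1 + 2 * b' t))⁻¹ := by
      rw [← Real.sqrt_inv]
      congr 1
      field_simp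
      linarith
    have hsin : Real.sin (2 * b (t + 2 * b t)) = Real.sin (2 * b t) := by
      rw [H.rel, show 2 * (π / 2 - b t) = π - 2 * b t by ring, Real.sin_pi_sub]
    simp only [Function.comp_apply, hg, hℓ, hinv, hsin]
    rw [Real.arctan_inv_of_pos hu, ← hu2]
    have hsn := (H.sin_pos t).ne'
    have hun := hu.ne'
    rw [Real.sqrt_sq hu.le]
    field_simp
  have h4 : (∫ t in (0 : ℝ)..(2 * π), (g ∘ fun Θ => Θ + 2 * b Θ) t * (1 + 2 * b' t))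
      = π / 2 * (∫ t in (0 : ℝ)..(2 * π), ℓ t) - ∫ t in (0 : ℝ)..(2 * π), g t := by
    have i1 := intervalIntegral.integral_sub (μ := volume) (a := 0) (b := 2 * π)
      (f := fun t => π / 2 * ℓ t) (g := g)
      ((continuous_const.mul cℓ).intervalIntegrable _ _) (cg.intervalIntegrable _ _)
    rw [← intervalIntegral.integral_const_mul, ← i1]
    exact intervalIntegral.integral_congr fun t _ => h3 t
  rw [h4] at h2
  linarith

end BData

end Pool.Agent.H719R2.PIB
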