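import Pool.Agent.H719R2.PIB.Hopf2
import Pool.Agent.H719R2.PIB.Wirt

/-!
# Consequences of projectivity, symmetry and four periodicity; the rigidity theorem
-/

open Set Filter Topology Complex MeasureTheory
open scoped ContDiff Real

namespace Pool.Agent.H719R2.PIB

variable {Y : ℂ → ℝ}

lemma P_eq' (Θ s : ℝ) : exp (Θ * I) + s • (I * exp (Θ * I)) = P Θ s := by
  rw [P_eq, T, mul_comm I]

/-- The structure equation from projectivity. -/
lemma exists_v (h : IsCollar Y) (hp : ∀ p : ℂ, ‖p‖ = 1 → ProjectiveInvolution Y p) :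
    ∃ v : ℝ → ℝ, HV Y v := by
  have key : ∀ Θ : ℝ, ∃ w : ℝ, ∀ c, 0 < c → c ≤ 1 → yy Y c Θ = xx Y c Θ + w := by
    intro Θ
    obtain ⟨a, c', d, had, hrel⟩ := hp (exp (Θ * I)) (norm_exp_ofReal_mul_I Θ)
    refine ⟨c' / a, ?_⟩
    intro c h0 h1
    have hs := S_neg h h0 h1 Θ
    have ht := S_pos h h0 h1 Θ
    have e1 : Y (P Θ (S Y (-1) c Θ)) = c := Y_Z h h0 h1 Θ (σ := -1) (by norm_num)
    have e2 : Y (P Θ (S Y 1 c Θ)) = c := Y_Z h h0 h1 Θ (σ := 1) (by norm_num)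
    have h2 := hrel (S Y (-1) c Θ) (S Y 1 c Θ) hs ht (by rw [P_eq', e2]; exact h1)
      (by rw [P_eq', P_eq', e1, e2])
    set s := S Y (-1) c Θ with hs'
    set t := S Y 1 c Θ with ht'
    obtain ⟨d1, e3, d2, e4⟩ := h2
    rw [div_eq_iff d1] at e3
    rw [div_eq_iff d2] at e4
    have ha : a ≠ 0 := left_ne_zero_of_mul had
    have hst : s - t ≠ 0 := by linarith [hs, ht] |> ne_of_lt
    have hda : d = -a := by
      have : (s - t) * (a + d) = 0 := by linarith
      rcases mul_eq_zero.1 this with h5 | h5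
      · exact absurd h5 hst
      · linarith
    have h5 : a * (s + t) = c' * s * t := by rw [hda] at e3; linarith
    unfold yy xx
    rw [← hs', ← ht']
    have hsn : s ≠ 0 := hs.ne
    have htn : t ≠ 0 := ht.ne'
    field_simp
    linarith
  choose v hv using key
  exact ⟨v, fun c Θ h0 h1 => hv Θ c h0 h1⟩

/-- The half opening angle at the outer leaf. -/
noncomputable def bb (Y : ℂ → ℝ) (Θ : ℝ) : ℝ := Real.arctan (S Y 1 1 Θ)

/-- Its derivative. -/
noncomputable def bb' (Y : ℂ → ℝ) (Θ : ℝ) : ℝ := -R Y (Z Y 1 1 Θ) / den Y 1 1 Θ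

lemma F_eq (Θ : ℝ) : F Y 1 Θ = Θ + 2 * bb Y Θ := rfl

lemma bb_hasDerivAt (h : IsCollar Y) (Θ : ℝ) : HasDerivAt (bb Y) (bb' Y Θ) Θ := by
  have h2 := (S_hasDerivAt_right h one_pos le_rfl Θ (σ := 1) (by norm_num)).arctan
  refine h2.congr_deriv ?_
  have hd := (den_pos h one_pos le_rfl Θ).ne'
  have h4 : (1 + S Y 1 1 Θ ^ 2) ≠ 0 := by positivity
  unfold bb'
  unfold den at *
  field_simp

lemma bb_slope (h : IsCollar Y) (Θ : ℝ) : 0 < 1 + 2 * bb' Y Θ := by
  have h2 := den_pos h one_pos le_rfl Θ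
  have h3 := den_neg h one_pos le_rfl (F Y 1 Θ)
  unfold den at h3
  rw [Z_F h one_pos le_rfl, S_F h one_pos le_rfl] at h3
  have h4 : 1 + 2 * bb' Y Θ = (S Y 1 1 Θ * N Y (Z Y 1 1 Θ) - R Y (Z Y 1 1 Θ)) / den Y 1 1 Θ := by
    unfold bb'
    unfold den at *
    field_simp
    ring
  rw [h4]
  exact div_pos (by linarith) h2

/-- The image of a point of the outer leaf under the dual billiard step. -/
lemma next_unique (h : IsCollar Y) {Θ : ℝ} {w : ℂ} (hw : Y w = 1)
    (hn : Next (Z Y (-1) 1 Θ) w) : w = Z Y (-1) 1 (F Y 1 Θ) := by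
  obtain ⟨p, hp, s, t, hs, ht, hz, hw'⟩ := hn
  have hS := S_neg h one_pos le_rfl Θ
  have e1 : p + s • (I * p) = p * (1 + s * I) := by rw [real_smul]; ring
  -- the parameters agree
  have hns : ∀ τ : ℝ, normSq (1 + (τ : ℂ) * I) = 1 + τ ^ 2 := by
    intro τ
    rw [normSq_apply]
    simp only [add_re, add_im, mul_re, mul_im, ofReal_re, ofReal_im, I_re, I_im, one_re, one_im]
    ring
  have hpn : normSq p = 1 := by rw [normSq_eq_norm_sq, hp]; norm_num
  have hsq : s ^ 2 = S Y (-1) 1 Θ ^ 2 := by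
    have h2 := congrArg normSq hz
    rw [e1, map_mul, hpn, one_mul, hns, Z, normSq_P] at h2
    linarith
  have hs2 : s = S Y (-1) 1 Θ := by
    rcases sq_eq_sq_iff_eq_or_eq_neg.1 hsq with h3 | h3
    · exact h3
    · linarith
  have hp2 : p = exp (Θ * I) := by
    rw [e1, hs2] at hz
    unfold Z P at hz
    have hne : (1 + (S Y (-1) 1 Θ : ℂ) * I) ≠ 0 := by
      intro hcon
      have := congrArg normSq hcon
      rw [hns] at this
      simp at this
      nlinarith [sq_nonneg (S Y (-1) 1 Θ)]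
    exact (mul_right_cancel₀ hne hz).symm
  rw [Z_F h one_pos le_rfl]
  rw [hp2, P_eq'] at hw'
  have ht2 : t = S Y 1 1 Θ :=
    S_unique h (by norm_num) one_pos le_rfl (by linarith) (by rw [← hw', hw])
  rw [hw', ht2, Z]

lemma Z_inj (h : IsCollar Y) {Θ Θ' : ℝ} (heq : Z Y (-1) 1 Θ = Z Y (-1) 1 Θ') :
    exp (Θ * I) = exp (Θ' * I) := by
  have hS := S_neg h one_pos le_rfl Θ
  have hS' := S_neg h one_pos le_rfl Θ'
  have hsq : S Y (-1) 1 Θ ^ 2 = S Y (-1) 1 Θ' ^ 2 := by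
    have h2 := congrArg normSq heq
    rw [Z, Z, normSq_P, normSq_P] at h2
    linarith
  have hs2 : S Y (-1) 1 Θ = S Y (-1) 1 Θ' := by
    rcases sq_eq_sq_iff_eq_or_eq_neg.1 hsq with h3 | h3
    · exact h3
    · linarith
  unfold Z P at heq
  rw [hs2] at heq
  have hne : (1 + (S Y (-1) 1 Θ' : ℂ) * I) ≠ 0 := by
    intro hcon
    have := congrArg Complex.re hcon
    simp at this
  exact mul_right_cancel₀ hne heq

/-- The four fold iterate of the step map is the full turn. -/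
lemma F_four (h : IsCollar Y) (h4 : OuterLeafFourPeriodic Y) (Θ : ℝ) :
    F Y 1 (F Y 1 (F Y 1 (F Y 1 Θ))) = Θ + 2 * π := by
  obtain ⟨z2, z3, z4, y2, y3, y4, n1, n2, n3, n4⟩ := h4 (Z Y (-1) 1 Θ)
    (Y_Z h one_pos le_rfl Θ (by norm_num))
  have e2 := next_unique h y2 n1
  rw [e2] at n2
  have e3 := next_unique h y3 n2
  rw [e3] at n3
  have e4 := next_unique h y4 n3
  rw [e4] at n4
  have e5 := next_unique h (Y_Z h one_pos le_rfl Θ (by norm_num)) n4
  have e6 := Z_inj h e5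
  rw [exp_eq_exp_iff_exists_int] at e6
  obtain ⟨n, hn⟩ := e6
  set F4 := F Y 1 (F Y 1 (F Y 1 (F Y 1 Θ))) with hF4
  have h2 : Θ = F4 + n * (2 * π) := by
    have h3 : (((Θ : ℝ) : ℂ) - ((F4 + n * (2 * π) : ℝ) : ℂ)) * I = 0 := by
      rw [sub_mul, hn]; push_cast; ring
    have h5 := (mul_eq_zero.1 h3).resolve_right I_ne_zero
    exact ofReal_injective (sub_eq_zero.1 h5)
  have hb : ∀ t, F Y 1 t - t = 2 * bb Y t := by intro t; rw [F_eq]; ring
  have hb0 : ∀ t, 0 < bb Y t := fun t => Real.arctan_pos.2 (S_pos h one_pos le_rfl t)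
  have hb1 : ∀ t, bb Y t < π / 2 := fun t => Real.arctan_lt_pi_div_two _
  have k1 := hb Θ
  have k2 := hb (F Y 1 Θ)
  have k3 := hb (F Y 1 (F Y 1 Θ))
  have k4 := hb (F Y 1 (F Y 1 (F Y 1 Θ)))
  have l1 := hb0 Θ
  have l2 := hb0 (F Y 1 Θ)
  have l3 := hb0 (F Y 1 (F Y 1 Θ))
  have l4 := hb0 (F Y 1 (F Y 1 (F Y 1 Θ)))
  have m1 := hb1 Θ
  have m2 := hb1 (F Y 1 Θ)
  have m3 := hb1 (F Y 1 (F Y 1 Θ))
  have m4 := hb1 (F Y 1 (F Y 1 (F Y 1 Θ)))
  have hpi := Real.pi_pos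
  have n1 : (0 : ℝ) < -n := by
    by_contra hcon
    push Not at hcon
    have : 0 ≤ (n : ℝ) * (2 * π) := mul_nonneg (by linarith) (by positivity)
    linarith
  have n2 : (-n : ℝ) < 2 := by
    by_contra hcon
    push Not at hcon
    have : 2 * (2 * π) ≤ (-n : ℝ) * (2 * π) := mul_le_mul_of_nonneg_right hcon (by positivity)
    linarith
  have n3 : n = -1 := by
    have h5 : (0 : ℤ) < -n := by exact_mod_cast n1
    have h6 : -n < (2 : ℤ) := by exact_mod_cast n2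
    omega
  rw [n3] at h2
  push_cast at h2
  linarith

lemma P_add_pi (Θ s : ℝ) : P (Θ + π) s = -P Θ s := by
  unfold P
  have : ((Θ + π : ℝ) : ℂ) * I = (Θ : ℂ) * I + π * I := by push_cast; ring
  rw [this, exp_add, exp_pi_mul_I]; ring

lemma S_add_pi (h : IsCollar Y) (hs : IsSymmetric Y) {σ c : ℝ} (hσ : σ ^ 2 = 1) (h0 : 0 < c)
    (h1 : c ≤ 1) (Θ : ℝ) : S Y σ c (Θ + π) = S Y σ c Θ := by
  symm
  obtain ⟨h2, h3⟩ := S_spec h hσ h0 h1 Θ
  apply S_unique h hσ h0 h1 h2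
  rw [P_add_pi, hs _ (by rw [h3]; exact h0.le) (by rw [h3]; exact h1), h3]

lemma bData (h : IsCollar Y) (hs : IsSymmetric Y) (h4 : OuterLeafFourPeriodic Y) :
    BData (bb Y) (bb' Y) := by
  have hper : ∀ Θ, bb Y (Θ + π) = bb Y Θ := by
    intro Θ; unfold bb; rw [S_add_pi h hs (by norm_num) one_pos le_rfl]
  have hFper : ∀ Θ, F Y 1 (Θ + π) = F Y 1 Θ + π := by
    intro Θ; rw [F_eq, F_eq, hper]; ring
  have hmono : StrictMono (F Y 1) := by
    refine strictMono_of_deriv_pos fun Θ => ?_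
    have : HasDerivAt (F Y 1) (1 + 2 * bb' Y Θ) Θ :=
      (hasDerivAt_id Θ).add ((bb_hasDerivAt h Θ).const_mul 2)
    rw [this.deriv]; exact bb_slope h Θ
  have hFF : ∀ Θ, F Y 1 (F Y 1 Θ) = Θ + π := by
    intro Θ
    have h5 := F_four h h4 Θ
    set G : ℝ → ℝ := fun Θ => F Y 1 (F Y 1 Θ) - π with hG
    have hGm : StrictMono G := fun a b hab => by
      have := hmono (hmono hab)
      simp only [hG]; linarith
    have hGG : G (G Θ) = Θ := by
      simp only [hG]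
      have e1 : F Y 1 (F Y 1 (F Y 1 Θ) - π) = F Y 1 (F Y 1 (F Y 1 Θ)) - π := by
        have := hFper (F Y 1 (F Y 1 Θ) - π)
        rw [sub_add_cancel] at this
        linarith
      have e2 : F Y 1 (F Y 1 (F Y 1 (F Y 1 Θ)) - π) = F Y 1 (F Y 1 (F Y 1 (F Y 1 Θ))) - π := by
        have := hFper (F Y 1 (F Y 1 (F Y 1 Θ)) - π)
        rw [sub_add_cancel] at this
        linarith
      rw [e1, e2, h5]; ring
    have hfix : G Θ = Θ := by
      rcases lt_trichotomy (G Θ) Θ with h6 | h6 | h6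
      · have := hGm h6
        rw [hGG] at this
        linarith
      · exact h6
      · have := hGm h6
        rw [hGG] at this
        linarith
    simp only [hG] at hfix
    linarith
  refine ⟨bb_hasDerivAt h, ?_, fun Θ => Real.arctan_pos.2 (S_pos h one_pos le_rfl Θ),
    fun Θ => Real.arctan_lt_pi_div_two _, bb_slope h, hper, ?_⟩
  · unfold bb'
    have e3 := slice (f := fun c Θ => R Y (Z Y 1 c Θ)) (R_continuousOn h (by norm_num))
      one_pos le_rfl
    have e4 := slice (den_cont h (σ := 1) (by norm_num)) one_pos le_rfl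
    exact e3.neg.div e4 (fun Θ => (den_pos h one_pos le_rfl Θ).ne')
  · intro Θ
    have h5 := hFF Θ
    rw [F_eq (F Y 1 Θ), F_eq] at h5
    linarith

/-- On the outer leaf the two coordinates are inverse to each other. -/
lemma xy_one (h : IsCollar Y) (hs : IsSymmetric Y) (h4 : OuterLeafFourPeriodic Y) (Θ : ℝ) :
    xx Y 1 Θ = S Y 1 1 Θ := by
  have H := bData h hs h4
  -- Θ = F (Θ'') with Θ'' = F (F (F Θ)) - 2π
  have h5 : F Y 1 (Θ - 2 * bb Y (Θ - π + 2 * bb Y (Θ - π))) = Θ := by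
    set t := Θ - π + 2 * bb Y (Θ - π) with ht
    have h6 : t + 2 * bb Y t = Θ := by
      have := H.FF (Θ - π)
      rw [sub_add_cancel] at this
      exact this
    have h7 : Θ - 2 * bb Y t = t := by linarith
    rw [h7, F_eq]
    exact h6
  set t := Θ - 2 * bb Y (Θ - π + 2 * bb Y (Θ - π)) with ht
  have h6 := S_F h one_pos le_rfl t
  rw [h5] at h6
  unfold xx
  rw [h6, inv_neg, neg_neg]
  -- S(t)⁻¹ = S(Θ)
  have h7 : bb Y Θ = π / 2 - bb Y t := by
    have := H.rel t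
    rw [← F_eq, h5] at this
    exact this
  have h8 : S Y 1 1 Θ = Real.tan (bb Y Θ) := by unfold bb; rw [Real.tan_arctan]
  rw [h8, h7, Real.tan_pi_div_two_sub]
  unfold bb
  rw [Real.tan_arctan]

end Pool.Agent.H719R2.PIB
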