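import Pool.Agent.H719R2.PIB.Defs

/-!
# Geometry of the collar: intersections of the leaves with the tangent lines of the circle
-/

open Set Filter Topology Complex
open scoped ContDiff Real

namespace Pool.Agent.H719R2.PIB

/-- The point with parameter `s` on the tangent line at `exp (i Θ)`. -/
noncomputable def P (Θ s : ℝ) : ℂ := exp (Θ * I) * (1 + s * I)

/-- The unit tangent vector at `exp (i Θ)`. -/
noncomputable def T (Θ : ℝ) : ℂ := exp (Θ * I) * I

lemma normSq_exp (Θ : ℝ) : normSq (exp (Θ * I)) = 1 := by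
  rw [normSq_eq_norm_sq, norm_exp_ofReal_mul_I]; norm_num

lemma normSq_P (Θ s : ℝ) : normSq (P Θ s) = 1 + s ^ 2 := by
  rw [P, map_mul, normSq_exp, one_mul, normSq_apply]
  simp only [add_re, add_im, mul_re, mul_im, ofReal_re, ofReal_im, I_re, I_im, one_re, one_im]
  ring

lemma norm_P_sq (Θ s : ℝ) : ‖P Θ s‖ ^ 2 = 1 + s ^ 2 := by
  rw [← normSq_eq_norm_sq, normSq_P]

lemma P_zero (Θ : ℝ) : P Θ 0 = exp (Θ * I) := by simp [P]

lemma P_eq (Θ s : ℝ) : P Θ s = exp (Θ * I) + s • T Θ := by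
  rw [P, T, real_smul]; ring

lemma P_hasDerivAt (Θ s : ℝ) : HasDerivAt (fun s : ℝ => P Θ s) (T Θ) s := by
  have h : (fun s : ℝ => P Θ s) = fun s : ℝ => exp (Θ * I) + s • T Θ := by
    ext s; exact P_eq Θ s
  rw [h]
  simpa using ((hasDerivAt_id s).smul_const (T Θ)).const_add (exp (Θ * I))

lemma P_continuous : Continuous (fun q : ℝ × ℝ => P q.1 q.2) := by
  unfold P; fun_prop

variable {Y : ℂ → ℝ}

namespace IsCollar

lemma le_zero_iff (h : IsCollar Y) {z : ℂ} : Y z ≤ 0 ↔ ‖z‖ ≤ 1 := by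
  rw [le_iff_lt_or_eq, le_iff_lt_or_eq, h.inner, h.leaf_zero]

lemma pos_iff (h : IsCollar Y) {z : ℂ} : 0 < Y z ↔ 1 < ‖z‖ := by
  rw [← not_le, ← not_le, h.le_zero_iff]

lemma nonneg_iff (h : IsCollar Y) {z : ℂ} : 0 ≤ Y z ↔ 1 ≤ ‖z‖ := by
  rw [← not_lt, ← not_lt, h.inner]

lemma contDiffAt (h : IsCollar Y) {z : ℂ} (h0 : 0 ≤ Y z) (h1 : Y z ≤ 1) : ContDiffAt ℝ 1 Y z := by
  obtain ⟨U, hU, hsub, hd⟩ := h.smooth
  exact hd.contDiffAt (hU.mem_nhds (hsub ⟨h0, h1⟩))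

lemma continuousAt (h : IsCollar Y) {z : ℂ} (h0 : 0 ≤ Y z) (h1 : Y z ≤ 1) : ContinuousAt Y z :=
  (h.contDiffAt h0 h1).continuousAt

lemma differentiableAt (h : IsCollar Y) {z : ℂ} (h0 : 0 ≤ Y z) (h1 : Y z ≤ 1) :
    DifferentiableAt ℝ Y z :=
  (h.contDiffAt h0 h1).differentiableAt (by norm_num)

/-- Points of the interior of a sublevel set have smaller leaf index. -/
lemma lt_of_mem_interior (h : IsCollar Y) {c : ℝ} (h0 : 0 < c) (h1 : c ≤ 1) {z : ℂ}
    (hz : z ∈ interior {z | Y z ≤ c}) : Y z < c := by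
  have hle : Y z ≤ c := (interior_subset hz : z ∈ {z | Y z ≤ c})
  refine lt_of_le_of_ne hle ?_
  intro heq
  have hmax : IsLocalMax Y z := by
    have : {z | Y z ≤ c} ∈ 𝓝 z := mem_interior_iff_mem_nhds.1 hz
    filter_upwards [this] with w hw
    have hw' : Y w ≤ c := hw
    rw [heq]; exact hw'
  exact h.regular z (by rw [heq]; exact h0.le) (by rw [heq]; exact h1) hmax.fderiv_eq_zero

/-- The closed unit disc lies in the interior of every larger sublevel set. -/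
lemma disc_mem_interior (h : IsCollar Y) {c : ℝ} (h0 : 0 < c) (_h1 : c ≤ 1) {z : ℂ}
    (hz : ‖z‖ ≤ 1) : z ∈ interior {z | Y z ≤ c} := by
  rw [mem_interior_iff_mem_nhds]
  rcases eq_or_lt_of_le hz with h2 | h2
  · have hY : Y z = 0 := (h.leaf_zero z).2 h2
    have hc : ContinuousAt Y z := h.continuousAt hY.ge (by rw [hY]; norm_num)
    have : ∀ᶠ w in 𝓝 z, Y w < c := hc.eventually (gt_mem_nhds (by rw [hY]; exact h0))
    filter_upwards [this] with w hw
    exact le_of_lt hw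
  · have : Metric.ball (0 : ℂ) 1 ∈ 𝓝 z := Metric.isOpen_ball.mem_nhds (by simpa using h2)
    filter_upwards [this] with w hw
    have : Y w < 0 := (h.inner w).2 (by simpa using hw)
    exact (this.trans h0).le

lemma fderiv_nonpos (h : IsCollar Y) {z w : ℂ} (h0 : 0 < Y z) (h1 : Y z ≤ 1)
    (hw : Y w ≤ Y z) : fderiv ℝ Y z (w - z) ≤ 0 := by
  have hd := h.differentiableAt h0.le h1
  have h2 : HasDerivAt (fun τ : ℝ => z + τ • (w - z)) (w - z) 0 := by
    simpa using ((hasDerivAt_id (0 : ℝ)).smul_const (w - z)).const_add z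
  have h3 : HasFDerivAt Y (fderiv ℝ Y z) ((fun τ : ℝ => z + τ • (w - z)) 0) := by
    simpa using hd.hasFDerivAt
  have h4 : HasDerivAt (fun τ : ℝ => Y (z + τ • (w - z))) (fderiv ℝ Y z (w - z)) 0 :=
    HasFDerivAt.comp_hasDerivAt (f := fun τ : ℝ => z + τ • (w - z)) (0 : ℝ) h3 h2
  rw [hasDerivAt_iff_tendsto_slope] at h4
  have h5 : Tendsto (slope (fun τ : ℝ => Y (z + τ • (w - z))) 0) (𝓝[>] 0)
      (𝓝 (fderiv ℝ Y z (w - z))) :=
    h4.mono_left (nhdsWithin_mono _ (fun x hx => ne_of_gt hx))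
  refine le_of_tendsto h5 ?_
  have h6 : ∀ᶠ τ in 𝓝[>] (0 : ℝ), τ < 1 :=
    (tendsto_id.mono_left nhdsWithin_le_nhds).eventually (gt_mem_nhds one_pos)
  filter_upwards [h6, self_mem_nhdsWithin] with τ hτ hτ0
  rw [mem_Ioi] at hτ0
  rw [slope_def_field, sub_zero, zero_smul, add_zero]
  have hconv := h.convex (Y z) h0.le h1
  have h7 : (1 - τ) • z + τ • w ∈ {w | Y w ≤ Y z} :=
    hconv (show z ∈ {w | Y w ≤ Y z} from le_refl (Y z)) hw (by linarith) hτ0.le (by ring)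
  have h8 : z + τ • (w - z) = (1 - τ) • z + τ • w := by
    rw [smul_sub, sub_smul, one_smul]; ring
  rw [h8]
  exact div_nonpos_of_nonpos_of_nonneg (sub_nonpos.2 h7) hτ0.le

lemma fderiv_neg (h : IsCollar Y) {z w : ℂ} (h0 : 0 < Y z) (h1 : Y z ≤ 1)
    (hw : w ∈ interior {w | Y w ≤ Y z}) : fderiv ℝ Y z (w - z) < 0 := by
  refine lt_of_le_of_ne (h.fderiv_nonpos h0 h1
    (interior_subset hw : w ∈ {w | Y w ≤ Y z})) ?_
  intro heq
  apply h.regular z h0.le h1
  rw [mem_interior_iff_mem_nhds, Metric.mem_nhds_iff] at hw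
  obtain ⟨ε, hε, hball⟩ := hw
  have key : ∀ u : ℂ, ‖u‖ < ε → fderiv ℝ Y z u ≤ 0 := by
    intro u hu
    have h2 : w + u ∈ {w | Y w ≤ Y z} := hball (by simpa [Metric.mem_ball, dist_eq_norm] using hu)
    have h3 := h.fderiv_nonpos h0 h1 h2
    have h4 : w + u - z = (w - z) + u := by ring
    rw [h4, map_add, heq, zero_add] at h3
    exact h3
  ext u
  by_cases hu : u = 0
  · rw [hu]; simp
  have hun : 0 < ‖u‖ := norm_pos_iff.2 hu
  set r := ε / (2 * ‖u‖) with hr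
  have hrpos : 0 < r := by positivity
  have hru : ‖r • u‖ < ε := by
    rw [norm_smul, Real.norm_eq_abs, abs_of_pos hrpos, hr]
    field_simp
    linarith
  have k1 := key (r • u) hru
  have k2 := key (-(r • u)) (by rwa [norm_neg])
  rw [map_neg] at k2
  have k3 : fderiv ℝ Y z (r • u) = 0 := by linarith
  rw [map_smul, smul_eq_mul] at k3
  rcases mul_eq_zero.1 k3 with h5 | h5
  · exact absurd h5 hrpos.ne'
  · simpa using h5

lemma nonneg_P (h : IsCollar Y) (Θ s : ℝ) : 0 ≤ Y (P Θ s) := by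
  rw [h.nonneg_iff]
  have := norm_P_sq Θ s
  nlinarith [norm_nonneg (P Θ s), sq_nonneg s]

lemma pos_P (h : IsCollar Y) (Θ : ℝ) {s : ℝ} (hs : s ≠ 0) : 0 < Y (P Θ s) := by
  rw [h.pos_iff]
  have h1 := norm_P_sq Θ s
  have h2 : 0 < s ^ 2 := by positivity
  nlinarith [norm_nonneg (P Θ s)]

/-- Transversality of the leaves and the tangent lines of the unit circle. -/
lemma transversal (h : IsCollar Y) {Θ s : ℝ} (hs : s ≠ 0) (h1 : Y (P Θ s) ≤ 1) :
    0 < s * fderiv ℝ Y (P Θ s) (T Θ) := by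
  have h0 := h.pos_P Θ hs
  have h2 : exp (Θ * I) ∈ interior {w | Y w ≤ Y (P Θ s)} :=
    h.disc_mem_interior h0 h1 (by rw [norm_exp_ofReal_mul_I])
  have h3 := h.fderiv_neg h0 h1 h2
  have h4 : exp (Θ * I) - P Θ s = -(s • T Θ) := by rw [P_eq]; ring
  rw [h4, map_neg, map_smul, smul_eq_mul] at h3
  linarith

/-- Uniqueness of the intersection point. -/
lemma unique_P (h : IsCollar Y) {Θ s t : ℝ} (hs : 0 < s * t) (h1 : Y (P Θ s) ≤ 1)
    (heq : Y (P Θ s) = Y (P Θ t)) : s = t := by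
  -- reduce to |s| < |t|
  have key : ∀ s t : ℝ, 0 < s * t → Y (P Θ s) ≤ 1 → Y (P Θ s) = Y (P Θ t) → ¬ |s| < |t| := by
    intro s t hst h1 heq hlt
    have ht : t ≠ 0 := by rintro rfl; simp at hst
    have hs : s ≠ 0 := by rintro rfl; simp at hst
    have h0 := h.pos_P Θ hs
    have hq : 0 < s / t := by
      rw [div_eq_mul_inv]
      have : s * t⁻¹ = (s * t) * (t⁻¹) ^ 2 := by field_simp
      rw [this]; positivity
    have hq1 : s / t < 1 := by
      have h2 : |s / t| < 1 := by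
        rw [abs_div, div_lt_one (abs_pos.2 ht)]; exact hlt
      exact lt_of_le_of_lt (le_abs_self _) h2
    have h2 : P Θ s = (1 - s / t) • exp (Θ * I) + (s / t) • P Θ t := by
      rw [P_eq, P_eq, smul_add, sub_smul, one_smul, smul_smul, div_mul_cancel₀ _ ht]
      ring
    have h3 : P Θ s ∈ interior {w | Y w ≤ Y (P Θ s)} := by
      have hint : exp (Θ * I) ∈ interior {w | Y w ≤ Y (P Θ s)} :=
        h.disc_mem_interior h0 h1 (by rw [norm_exp_ofReal_mul_I])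
      have hmem : P Θ t ∈ {w | Y w ≤ Y (P Θ s)} := by
        show Y (P Θ t) ≤ Y (P Θ s)
        rw [heq]
      have hconv := h.convex (Y (P Θ s)) h0.le h1
      have := hconv.combo_interior_self_mem_interior hint hmem (sub_pos.2 hq1) hq.le (by ring)
      rw [h2] at this ⊢
      exact this
    exact lt_irrefl _ (h.lt_of_mem_interior h0 h1 h3)
  have h2 := key s t hs h1 heq
  have h3 := key t s (by rwa [mul_comm]) (by rwa [← heq]) heq.symm
  have h4 : |s| = |t| := le_antisymm (not_lt.1 h3) (not_lt.1 h2)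
  rcases abs_eq_abs.1 h4 with h5 | h5
  · exact h5
  · exfalso
    rw [h5] at hs
    nlinarith [sq_nonneg t]

/-- Existence of the intersection point. -/
lemma exists_P (h : IsCollar Y) (Θ : ℝ) {c : ℝ} (h0 : 0 < c) (h1 : c ≤ 1) {σ : ℝ}
    (hσ : σ ^ 2 = 1) : ∃ s, 0 < σ * s ∧ Y (P Θ s) = c := by
  set S : Set ℝ := {τ | 0 ≤ τ ∧ Y (P Θ (σ * τ)) ≤ 1} with hS
  have hPc : Continuous (fun τ : ℝ => P Θ (σ * τ)) := by unfold P; fun_prop
  have hK := h.compact 1 zero_le_one le_rfl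
  have hclosed : IsClosed S := by
    have : S = Ici 0 ∩ (fun τ : ℝ => P Θ (σ * τ)) ⁻¹' {z | Y z ≤ 1} := by ext τ; simp [hS]
    rw [this]
    exact isClosed_Ici.inter (hK.isClosed.preimage hPc)
  obtain ⟨M, hM⟩ := hK.isBounded.exists_norm_le
  have hbdd : ∀ τ ∈ S, τ ≤ M := by
    intro τ hτ
    have h2 := hM _ hτ.2
    have h3 := norm_P_sq Θ (σ * τ)
    have h4 : (σ * τ) ^ 2 = τ ^ 2 := by rw [mul_pow, hσ, one_mul]
    rw [h4] at h3
    have h5 : 0 ≤ ‖P Θ (σ * τ)‖ := norm_nonneg _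
    by_contra hcon
    push Not at hcon
    nlinarith [hτ.1]
  have hcomp : IsCompact S := by
    refine Metric.isCompact_of_isClosed_isBounded hclosed ?_
    refine (Metric.isBounded_Icc 0 M).subset (fun τ hτ => ⟨hτ.1, hbdd τ hτ⟩)
  have hne : S.Nonempty := ⟨0, le_rfl, by
    rw [mul_zero, P_zero, (h.leaf_zero _).2 (norm_exp_ofReal_mul_I Θ)]; norm_num⟩
  obtain ⟨m, hmS, hmax⟩ := hcomp.exists_isGreatest hne
  -- the whole segment [0, m] belongs to S
  have hseg : ∀ τ ∈ Icc 0 m, Y (P Θ (σ * τ)) ≤ 1 := by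
    intro τ hτ
    rcases eq_or_lt_of_le hmS.1 with hm0 | hm0
    · have : τ = m := le_antisymm hτ.2 (by rw [← hm0]; exact hτ.1)
      rw [this]; exact hmS.2
    · have hconv := h.convex 1 zero_le_one le_rfl
      have hz : P Θ 0 ∈ {w | Y w ≤ 1} := by
        show Y (P Θ 0) ≤ 1
        rw [P_zero, (h.leaf_zero _).2 (norm_exp_ofReal_mul_I Θ)]; norm_num
      have hq0 : 0 ≤ τ / m := div_nonneg hτ.1 hm0.le
      have hq1 : τ / m ≤ 1 := by rw [div_le_one hm0]; exact hτ.2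
      have := hconv hz (show P Θ (σ * m) ∈ {w | Y w ≤ 1} from hmS.2) (sub_nonneg.2 hq1) hq0
        (by ring)
      have h2 : (1 - τ / m) • P Θ 0 + (τ / m) • P Θ (σ * m) = P Θ (σ * τ) := by
        rw [P_eq, P_eq Θ (σ * m), P_eq Θ (σ * τ), zero_smul, add_zero, smul_add, smul_smul,
          sub_smul, one_smul]
        have : τ / m * (σ * m) = σ * τ := by field_simp
        rw [this]; ring
      rw [h2] at this
      exact this
  have hcont : ContinuousOn (fun τ : ℝ => Y (P Θ (σ * τ))) (Icc 0 m) := by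
    intro τ hτ
    have h2 := h.continuousAt (h.nonneg_P Θ (σ * τ)) (hseg τ hτ)
    exact (ContinuousAt.comp (f := fun τ : ℝ => P Θ (σ * τ)) h2 hPc.continuousAt).continuousWithinAt
  have hm1 : Y (P Θ (σ * m)) = 1 := by
    refine le_antisymm hmS.2 (not_lt.1 ?_)
    intro hlt
    have h2 := h.continuousAt (h.nonneg_P Θ (σ * m)) hmS.2
    have h3 : ContinuousAt (fun τ : ℝ => Y (P Θ (σ * τ))) m :=
      ContinuousAt.comp (f := fun τ : ℝ => P Θ (σ * τ)) h2 hPc.continuousAt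
    have h4 : ∀ᶠ τ in 𝓝 m, Y (P Θ (σ * τ)) < 1 := h3.eventually (gt_mem_nhds hlt)
    have h5 : ∀ᶠ τ in 𝓝[>] m, Y (P Θ (σ * τ)) < 1 := h4.filter_mono nhdsWithin_le_nhds
    obtain ⟨τ, hτ, hτm⟩ := (h5.and eventually_mem_nhdsWithin).exists
    rw [mem_Ioi] at hτm
    have h6 : τ ≤ m := hmax ⟨hmS.1.trans hτm.le, hτ.le⟩
    linarith
  have h00 : Y (P Θ (σ * 0)) = 0 := by
    rw [mul_zero, P_zero, (h.leaf_zero _).2 (norm_exp_ofReal_mul_I Θ)]
  obtain ⟨τ, hτ, hτc⟩ := intermediate_value_Icc hmS.1 hcont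
    (show c ∈ Icc (Y (P Θ (σ * 0))) (Y (P Θ (σ * m))) from ⟨by rw [h00]; exact h0.le, by
      rw [hm1]; exact h1⟩)
  refine ⟨σ * τ, ?_, hτc⟩
  have h7 : σ * (σ * τ) = τ := by rw [← mul_assoc, ← pow_two, hσ, one_mul]
  rw [h7]
  refine lt_of_le_of_ne hτ.1 ?_
  intro h8
  rw [← h8] at hτc
  simp only at hτc
  rw [h00] at hτc
  exact h0.ne hτc

end IsCollar

end Pool.Agent.H719R2.PIB
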