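import Pool.Agent.H719R2.PIB.Coord

/-!
# Slopes of the leaves, positivity, and the identity between left and right integrals
-/

open Set Filter Topology Complex
open scoped ContDiff Real

namespace Pool.Agent.H719R2.PIB

variable {Y : ℂ → ℝ}

/-- The common denominator. -/
noncomputable def den (Y : ℂ → ℝ) (σ c Θ : ℝ) : ℝ :=
  R Y (Z Y σ c Θ) + S Y σ c Θ * N Y (Z Y σ c Θ)

/-- The positive weight (transversal density). -/
noncomputable def ww (Y : ℂ → ℝ) (c Θ : ℝ) : ℝ := (1 + yy Y c Θ ^ 2) / den Y 1 c Θ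

noncomputable def AA (Y : ℂ → ℝ) (c Θ : ℝ) : ℝ :=
  (1 + xx Y c Θ ^ 2) * (S Y (-1) c Θ * N Y (Z Y (-1) c Θ)) / den Y (-1) c Θ

noncomputable def BB (Y : ℂ → ℝ) (c Θ : ℝ) : ℝ :=
  (1 + yy Y c Θ ^ 2) * (S Y 1 c Θ * N Y (Z Y 1 c Θ)) / den Y 1 c Θ

section basics

variable (h : IsCollar Y) {c : ℝ} (h0 : 0 < c) (h1 : c ≤ 1) (Θ : ℝ)
include h h0 h1

lemma den_pos : 0 < den Y 1 c Θ := by
  have h2 := S_transversal h h0 h1 Θ (σ := 1) (by norm_num)
  have h3 := S_pos h h0 h1 Θ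
  exact (pos_iff_pos_of_mul_pos h2).1 h3

lemma den_neg : den Y (-1) c Θ < 0 := by
  have h2 := S_transversal h h0 h1 Θ (σ := -1) (by norm_num)
  have h3 := S_neg h h0 h1 Θ
  by_contra hcon
  push Not at hcon
  have := mul_nonpos_of_nonpos_of_nonneg h3.le hcon
  exact absurd h2 (not_lt.2 this)

lemma ww_pos : 0 < ww Y c Θ := div_pos (by positivity) (den_pos h h0 h1 Θ)

lemma AA_pos : 0 < AA Y c Θ := by
  unfold AA
  have h3 := S_neg h h0 h1 Θ
  have h4 := N_Z_pos h h0 h1 Θ (σ := -1) (by norm_num)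
  have h5 := den_neg h h0 h1 Θ
  refine div_pos_of_neg_of_neg ?_ h5
  refine mul_neg_of_pos_of_neg (by positivity) (mul_neg_of_neg_of_pos h3 h4)

lemma BB_pos : 0 < BB Y c Θ := by
  unfold BB
  have h3 := S_pos h h0 h1 Θ
  have h4 := N_Z_pos h h0 h1 Θ (σ := 1) (by norm_num)
  have h5 := den_pos h h0 h1 Θ
  positivity

lemma xx_hasDerivAt_right : HasDerivAt (fun Θ => xx Y c Θ) (AA Y c Θ - (1 + xx Y c Θ ^ 2)) Θ := by
  have hs := S_ne h h0 h1 Θ (σ := -1) (by norm_num)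
  have hd := (den_neg h h0 h1 Θ).ne
  have h2 := ((S_hasDerivAt_right h h0 h1 Θ (σ := -1) (by norm_num)).inv hs).neg
  refine h2.congr_deriv ?_
  unfold AA xx den at *
  field_simp
  ring

lemma yy_hasDerivAt_right : HasDerivAt (fun Θ => yy Y c Θ) ((1 + yy Y c Θ ^ 2) - BB Y c Θ) Θ := by
  have hs := S_ne h h0 h1 Θ (σ := 1) (by norm_num)
  have hd := (den_pos h h0 h1 Θ).ne'
  have h2 := ((S_hasDerivAt_right h h0 h1 Θ (σ := 1) (by norm_num)).inv hs)
  refine h2.congr_deriv ?_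
  unfold BB yy den at *
  field_simp
  ring

end basics

lemma xx_hasDerivAt_left (h : IsCollar Y) {c : ℝ} (h0 : 0 < c) (h1 : c < 1) (Θ : ℝ) :
    HasDerivAt (fun c => xx Y c Θ) ((1 + xx Y c Θ ^ 2) / den Y (-1) c Θ) c := by
  have hs := S_ne h h0 h1.le Θ (σ := -1) (by norm_num)
  have hd := (den_neg h h0 h1.le Θ).ne
  have h2 := ((S_hasDerivAt_left h h0 h1 Θ (σ := -1) (by norm_num)).inv hs).neg
  refine h2.congr_deriv ?_
  unfold xx den at *
  field_simp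
  ring

lemma yy_hasDerivAt_left (h : IsCollar Y) {c : ℝ} (h0 : 0 < c) (h1 : c < 1) (Θ : ℝ) :
    HasDerivAt (fun c => yy Y c Θ) (-ww Y c Θ) c := by
  have hs := S_ne h h0 h1.le Θ (σ := 1) (by norm_num)
  have hd := (den_pos h h0 h1.le Θ).ne'
  have h2 := ((S_hasDerivAt_left h h0 h1 Θ (σ := 1) (by norm_num)).inv hs)
  refine h2.congr_deriv ?_
  unfold ww yy den at *
  field_simp
  ring

/-! ### Continuity and periodicity -/

lemma P_periodic (Θ s : ℝ) : P (Θ + 2 * π) s = P Θ s := by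
  unfold P
  congr 1
  have : ((Θ + 2 * π : ℝ) : ℂ) * I = (Θ : ℂ) * I + 2 * π * I := by push_cast; ring
  rw [this, exp_periodic]

lemma S_periodic (σ c Θ : ℝ) : S Y σ c (Θ + 2 * π) = S Y σ c Θ := by
  unfold S
  congr 1
  ext s
  rw [P_periodic]

lemma Z_periodic (σ c Θ : ℝ) : Z Y σ c (Θ + 2 * π) = Z Y σ c Θ := by
  unfold Z; rw [S_periodic, P_periodic]

lemma xx_periodic (c Θ : ℝ) : xx Y c (Θ + 2 * π) = xx Y c Θ := by unfold xx; rw [S_periodic]
lemma yy_periodic (c Θ : ℝ) : yy Y c (Θ + 2 * π) = yy Y c Θ := by unfold yy; rw [S_periodic]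

/-- The half open set of parameters. -/
def DD : Set (ℝ × ℝ) := {q | 0 < q.1 ∧ q.1 ≤ 1}

lemma S_cont (h : IsCollar Y) {σ : ℝ} (hσ : σ ^ 2 = 1) :
    ContinuousOn (fun q : ℝ × ℝ => S Y σ q.1 q.2) DD := S_continuousOn h hσ

lemma den_cont (h : IsCollar Y) {σ : ℝ} (hσ : σ ^ 2 = 1) :
    ContinuousOn (fun q : ℝ × ℝ => den Y σ q.1 q.2) DD :=
  (R_continuousOn h hσ).add ((S_continuousOn h hσ).mul (N_continuousOn h hσ))

lemma xx_cont (h : IsCollar Y) : ContinuousOn (fun q : ℝ × ℝ => xx Y q.1 q.2) DD :=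
  ((S_continuousOn h (by norm_num)).inv₀ (fun q hq => S_ne h hq.1 hq.2 q.2 (by norm_num))).neg

lemma yy_cont (h : IsCollar Y) : ContinuousOn (fun q : ℝ × ℝ => yy Y q.1 q.2) DD :=
  ((S_continuousOn h (by norm_num)).inv₀ (fun q hq => S_ne h hq.1 hq.2 q.2 (by norm_num)))

lemma ww_cont (h : IsCollar Y) : ContinuousOn (fun q : ℝ × ℝ => ww Y q.1 q.2) DD :=
  (continuousOn_const.add ((yy_cont h).pow 2)).div (den_cont h (by norm_num))
    (fun q hq => (den_pos h hq.1 hq.2 q.2).ne')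

lemma AA_cont (h : IsCollar Y) : ContinuousOn (fun q : ℝ × ℝ => AA Y q.1 q.2) DD :=
  ((continuousOn_const.add ((xx_cont h).pow 2)).mul
    ((S_continuousOn h (by norm_num)).mul (N_continuousOn h (by norm_num)))).div
    (den_cont h (by norm_num)) (fun q hq => (den_neg h hq.1 hq.2 q.2).ne)

lemma BB_cont (h : IsCollar Y) : ContinuousOn (fun q : ℝ × ℝ => BB Y q.1 q.2) DD :=
  ((continuousOn_const.add ((yy_cont h).pow 2)).mul
    ((S_continuousOn h (by norm_num)).mul (N_continuousOn h (by norm_num)))).div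
    (den_cont h (by norm_num)) (fun q hq => (den_pos h hq.1 hq.2 q.2).ne')

/-- Restriction of a continuous function on the parameter set to one leaf. -/
lemma slice {f : ℝ → ℝ → ℝ} (hf : ContinuousOn (fun q : ℝ × ℝ => f q.1 q.2) DD) {c : ℝ}
    (h0 : 0 < c) (h1 : c ≤ 1) : Continuous (fun Θ => f c Θ) := by
  rw [← continuousOn_univ]
  have : ContinuousOn (fun Θ : ℝ => ((c, Θ) : ℝ × ℝ)) univ := by fun_prop
  exact hf.comp this (fun Θ _ => ⟨h0, h1⟩)

/-! ### The step map on tangency parameters -/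

/-- The next tangency parameter. -/
noncomputable def F (Y : ℂ → ℝ) (c Θ : ℝ) : ℝ := Θ + 2 * Real.arctan (S Y 1 c Θ)

lemma S_F (h : IsCollar Y) {c : ℝ} (h0 : 0 < c) (h1 : c ≤ 1) (Θ : ℝ) :
    S Y (-1) c (F Y c Θ) = -S Y 1 c Θ := by
  symm
  apply S_unique h (by norm_num) h0 h1
  · have := S_pos h h0 h1 Θ; linarith
  · unfold F
    rw [P_shift]
    exact Y_Z h h0 h1 Θ (σ := 1) (by norm_num)

lemma Z_F (h : IsCollar Y) {c : ℝ} (h0 : 0 < c) (h1 : c ≤ 1) (Θ : ℝ) :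
    Z Y (-1) c (F Y c Θ) = Z Y 1 c Θ := by
  unfold Z
  rw [S_F h h0 h1]
  exact P_shift _ _

lemma F_hasDerivAt (h : IsCollar Y) {c : ℝ} (h0 : 0 < c) (h1 : c ≤ 1) (Θ : ℝ) :
    HasDerivAt (F Y c) ((S Y 1 c Θ * N Y (Z Y 1 c Θ) - R Y (Z Y 1 c Θ)) / den Y 1 c Θ) Θ := by
  have h2 := (S_hasDerivAt_right h h0 h1 Θ (σ := 1) (by norm_num)).arctan
  have h3 := (hasDerivAt_id Θ).add (h2.const_mul 2)
  refine h3.congr_deriv ?_
  have hd := (den_pos h h0 h1 Θ).ne'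
  have h4 : (1 + S Y 1 c Θ ^ 2) ≠ 0 := by positivity
  unfold den at *
  field_simp
  ring

lemma F_periodic (c Θ : ℝ) : F Y c (Θ + 2 * π) = F Y c Θ + 2 * π := by
  unfold F; rw [S_periodic]; ring

/-- Left integrand. -/
noncomputable def lf (Y : ℂ → ℝ) (c Θ : ℝ) : ℝ :=
  (xx Y c Θ ^ 2 / (1 + xx Y c Θ ^ 2) - xx Y c Θ ^ 2 / AA Y c Θ) *
    (-(1 + xx Y c Θ ^ 2) / den Y (-1) c Θ)

/-- Right integrand. -/
noncomputable def rf (Y : ℂ → ℝ) (c Θ : ℝ) : ℝ :=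
  (yy Y c Θ ^ 2 / BB Y c Θ - yy Y c Θ ^ 2 / (1 + yy Y c Θ ^ 2)) * ww Y c Θ

lemma lf_F (h : IsCollar Y) {c : ℝ} (h0 : 0 < c) (h1 : c ≤ 1) (Θ : ℝ) :
    lf Y c (F Y c Θ) * ((S Y 1 c Θ * N Y (Z Y 1 c Θ) - R Y (Z Y 1 c Θ)) / den Y 1 c Θ)
      = rf Y c Θ := by
  have hd := (den_pos h h0 h1 Θ).ne'
  have hd2 := (den_neg h h0 h1 (F Y c Θ)).ne
  have hs := (S_pos h h0 h1 Θ).ne'
  have hN := (N_Z_pos h h0 h1 Θ (σ := 1) (by norm_num)).ne'
  unfold lf rf AA BB ww xx yy den at *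
  rw [S_F h h0 h1, Z_F h h0 h1] at *
  set s := S Y 1 c Θ with hs'
  set n := N Y (Z Y 1 c Θ) with hn'
  set r := R Y (Z Y 1 c Θ) with hr'
  have hs2 : (1 : ℝ) + s ^ 2 ≠ 0 := by positivity
  have hd3 : r - s * n ≠ 0 := by
    intro hcon; apply hd2; linarith
  have hd4 : s * n - r ≠ 0 := by
    intro hcon; apply hd3; linarith
  have he : r + -s * n = r - s * n := by ring
  rw [he]
  field_simp
  ring

lemma lf_cont (h : IsCollar Y) : ContinuousOn (fun q : ℝ × ℝ => lf Y q.1 q.2) DD := by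
  unfold lf
  refine ContinuousOn.mul (ContinuousOn.sub ?_ ?_) ?_
  · exact ((xx_cont h).pow 2).div (continuousOn_const.add ((xx_cont h).pow 2))
      (fun q _ => by positivity)
  · exact ((xx_cont h).pow 2).div (AA_cont h) (fun q hq => (AA_pos h hq.1 hq.2 q.2).ne')
  · exact ((continuousOn_const.add ((xx_cont h).pow 2)).neg).div (den_cont h (by norm_num))
      (fun q hq => (den_neg h hq.1 hq.2 q.2).ne)

lemma rf_cont (h : IsCollar Y) : ContinuousOn (fun q : ℝ × ℝ => rf Y q.1 q.2) DD := by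
  unfold rf
  refine ContinuousOn.mul (ContinuousOn.sub ?_ ?_) (ww_cont h)
  · exact ((yy_cont h).pow 2).div (BB_cont h) (fun q hq => (BB_pos h hq.1 hq.2 q.2).ne')
  · exact ((yy_cont h).pow 2).div (continuousOn_const.add ((yy_cont h).pow 2))
      (fun q _ => by positivity)

lemma lf_periodic (c Θ : ℝ) : lf Y c (Θ + 2 * π) = lf Y c Θ := by
  unfold lf AA den
  simp only [xx_periodic, S_periodic, Z_periodic]

/-- The identity between the left and the right integrals over a leaf. -/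
theorem integral_lf_eq (h : IsCollar Y) {c : ℝ} (h0 : 0 < c) (h1 : c ≤ 1) :
    ∫ Θ in (0 : ℝ)..(2 * π), lf Y c Θ = ∫ Θ in (0 : ℝ)..(2 * π), rf Y c Θ := by
  have hcont : Continuous (fun Θ => lf Y c Θ) := slice (lf_cont h) h0 h1
  have hF' : Continuous (fun Θ => (S Y 1 c Θ * N Y (Z Y 1 c Θ) - R Y (Z Y 1 c Θ)) / den Y 1 c Θ) := by
    have e1 := slice (S_cont h (σ := 1) (by norm_num)) h0 h1
    have e2 := slice (f := fun c Θ => N Y (Z Y 1 c Θ)) (N_continuousOn h (by norm_num)) h0 h1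
    have e3 := slice (f := fun c Θ => R Y (Z Y 1 c Θ)) (R_continuousOn h (by norm_num)) h0 h1
    have e4 := slice (den_cont h (σ := 1) (by norm_num)) h0 h1
    exact ((e1.mul e2).sub e3).div e4 (fun Θ => (den_pos h h0 h1 Θ).ne')
  have h2 := intervalIntegral.integral_comp_mul_deriv (a := 0) (b := 2 * π)
    (f := F Y c) (f' := fun Θ => (S Y 1 c Θ * N Y (Z Y 1 c Θ) - R Y (Z Y 1 c Θ)) / den Y 1 c Θ)
    (g := fun Θ => lf Y c Θ) (fun Θ _ => F_hasDerivAt h h0 h1 Θ) hF'.continuousOn hcont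
  have h3 : (fun Θ => ((fun Θ => lf Y c Θ) ∘ F Y c) Θ *
      ((S Y 1 c Θ * N Y (Z Y 1 c Θ) - R Y (Z Y 1 c Θ)) / den Y 1 c Θ)) = fun Θ => rf Y c Θ := by
    ext Θ
    exact lf_F h h0 h1 Θ
  rw [h3] at h2
  rw [h2]
  have h4 : F Y c (2 * π) = F Y c 0 + 2 * π := by
    have := F_periodic (Y := Y) c 0
    rwa [zero_add] at this
  rw [h4]
  have hper : Function.Periodic (fun Θ => lf Y c Θ) (2 * π) := fun Θ => lf_periodic c Θ
  have h5 := hper.intervalIntegral_add_eq 0 (F Y c 0)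
  rwa [zero_add] at h5

end Pool.Agent.H719R2.PIB
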