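import Pool.Agent.H719R2.PIB.Hopf1

/-!
# The monotone quantity (an E. Hopf type argument)
-/

open Set Filter Topology Complex MeasureTheory
open scoped ContDiff Real

namespace Pool.Agent.H719R2.PIB

variable {Y : ℂ → ℝ}

/-- The derivative of the structure function `v`. -/
noncomputable def vp (Y : ℂ → ℝ) (Θ : ℝ) : ℝ :=
  ((1 + yy Y 1 Θ ^ 2) - BB Y 1 Θ) - (AA Y 1 Θ - (1 + xx Y 1 Θ ^ 2))

/-- The structure equation: in the coordinates `x`, `y` the step is a translation. -/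
def HV (Y : ℂ → ℝ) (v : ℝ → ℝ) : Prop := ∀ c Θ, 0 < c → c ≤ 1 → yy Y c Θ = xx Y c Θ + v Θ

section

variable {v : ℝ → ℝ}

lemma v_hasDerivAt_aux (h : IsCollar Y) (hv : HV Y v) {c : ℝ} (h0 : 0 < c) (h1 : c ≤ 1) (Θ : ℝ) :
    HasDerivAt v (((1 + yy Y c Θ ^ 2) - BB Y c Θ) - (AA Y c Θ - (1 + xx Y c Θ ^ 2))) Θ := by
  have e : v = fun Θ => yy Y c Θ - xx Y c Θ := by
    ext t; rw [hv c t h0 h1]; ring
  rw [e]
  exact (yy_hasDerivAt_right h h0 h1 Θ).sub (xx_hasDerivAt_right h h0 h1 Θ)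

lemma v_hasDerivAt (h : IsCollar Y) (hv : HV Y v) (Θ : ℝ) : HasDerivAt v (vp Y Θ) Θ :=
  v_hasDerivAt_aux h hv one_pos le_rfl Θ

lemma v_cont (h : IsCollar Y) (hv : HV Y v) : Continuous v :=
  continuous_iff_continuousAt.2 fun Θ => (v_hasDerivAt h hv Θ).continuousAt

lemma vp_cont (h : IsCollar Y) : Continuous (vp Y) := by
  unfold vp
  have e1 := slice (yy_cont h) one_pos le_rfl
  have e2 := slice (BB_cont h) one_pos le_rfl
  have e3 := slice (AA_cont h) one_pos le_rfl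
  have e4 := slice (xx_cont h) one_pos le_rfl
  exact ((continuous_const.add (e1.pow 2)).sub e2).sub (e3.sub (continuous_const.add (e4.pow 2)))

lemma AB_sum (h : IsCollar Y) (hv : HV Y v) {c : ℝ} (h0 : 0 < c) (h1 : c ≤ 1) (Θ : ℝ) :
    AA Y c Θ + BB Y c Θ = (1 + xx Y c Θ ^ 2) + (1 + yy Y c Θ ^ 2) - vp Y Θ := by
  have e := (v_hasDerivAt_aux h hv h0 h1 Θ).unique (v_hasDerivAt h hv Θ)
  linarith

lemma ww_eq (h : IsCollar Y) (hv : HV Y v) {c : ℝ} (h0 : 0 < c) (h1 : c < 1) (Θ : ℝ) :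
    -(1 + xx Y c Θ ^ 2) / den Y (-1) c Θ = ww Y c Θ := by
  have e1 := yy_hasDerivAt_left h h0 h1 Θ
  have e2 : HasDerivAt (fun c => yy Y c Θ) ((1 + xx Y c Θ ^ 2) / den Y (-1) c Θ) c := by
    have e3 := (xx_hasDerivAt_left h h0 h1 Θ).add_const (v Θ)
    refine e3.congr_of_eventuallyEq ?_
    filter_upwards [lt_mem_nhds h0, gt_mem_nhds h1] with t ht0 ht1
    exact hv t Θ ht0 ht1.le
  have e3 := e1.unique e2
  rw [neg_div, ← e3]; ring

/-- `c(Θ) = √(v² + 4 - 2 v')`. -/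
noncomputable def cc (Y : ℂ → ℝ) (v : ℝ → ℝ) (Θ : ℝ) : ℝ := Real.sqrt (v Θ ^ 2 + 4 - 2 * vp Y Θ)

/-- The integrand of the monotone quantity. -/
noncomputable def EE (Y : ℂ → ℝ) (v : ℝ → ℝ) (c Θ : ℝ) : ℝ :=
  cc Y v Θ * Real.arctan (cc Y v Θ / (xx Y c Θ + yy Y c Θ))
    - (Real.arctan (xx Y c Θ)⁻¹ + Real.arctan (yy Y c Θ)⁻¹)

/-- The monotone quantity. -/
noncomputable def NN (Y : ℂ → ℝ) (v : ℝ → ℝ) (c : ℝ) : ℝ := ∫ Θ in (0 : ℝ)..(2 * π), EE Y v c Θ

/-- The gap in the Titu inequality, with the weight. -/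
noncomputable def gap (Y : ℂ → ℝ) (c Θ : ℝ) : ℝ :=
  ww Y c Θ * ((xx Y c Θ * BB Y c Θ - yy Y c Θ * AA Y c Θ) ^ 2 /
    (AA Y c Θ * BB Y c Θ * (AA Y c Θ + BB Y c Θ)))

lemma gap_nonneg (h : IsCollar Y) {c : ℝ} (h0 : 0 < c) (h1 : c ≤ 1) (Θ : ℝ) : 0 ≤ gap Y c Θ := by
  have e1 := AA_pos h h0 h1 Θ
  have e2 := BB_pos h h0 h1 Θ
  have e3 := ww_pos h h0 h1 Θ
  unfold gap; positivity

lemma gap_cont (h : IsCollar Y) : ContinuousOn (fun q : ℝ × ℝ => gap Y q.1 q.2) DD := by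
  unfold gap
  refine (ww_cont h).mul (ContinuousOn.div ?_ ?_ ?_)
  · exact (((xx_cont h).mul (BB_cont h)).sub ((yy_cont h).mul (AA_cont h))).pow 2
  · exact ((AA_cont h).mul (BB_cont h)).mul ((AA_cont h).add (BB_cont h))
  · intro q hq
    have e1 := AA_pos h hq.1 hq.2 q.2
    have e2 := BB_pos h hq.1 hq.2 q.2
    positivity

lemma EE_hasDerivAt (h : IsCollar Y) (hv : HV Y v)
    (hpos : ∀ Θ, 0 < v Θ ^ 2 + 4 - 2 * vp Y Θ) {c : ℝ} (h0 : 0 < c) (h1 : c < 1) (Θ : ℝ) :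
    HasDerivAt (fun c => EE Y v c Θ) (gap Y c Θ + (lf Y c Θ - rf Y c Θ)) c := by
  have hx := xx_pos h h0 h1.le Θ
  have hy := yy_pos h h0 h1.le Θ
  have hA := AA_pos h h0 h1.le Θ
  have hB := BB_pos h h0 h1.le Θ
  have hsum := AB_sum h hv h0 h1.le Θ
  have hvv := hv c Θ h0 h1.le
  have hcc2 : cc Y v Θ ^ 2 = v Θ ^ 2 + 4 - 2 * vp Y Θ := Real.sq_sqrt (hpos Θ).le
  have dx : HasDerivAt (fun c => xx Y c Θ) (-ww Y c Θ) c := by
    refine (xx_hasDerivAt_left h h0 h1 Θ).congr_deriv ?_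
    rw [← ww_eq h hv h0 h1 Θ]; ring
  have dy := yy_hasDerivAt_left h h0 h1 Θ
  have dm : HasDerivAt (fun c => xx Y c Θ + yy Y c Θ) (-ww Y c Θ + -ww Y c Θ) c := dx.add dy
  have hm : xx Y c Θ + yy Y c Θ ≠ 0 := by positivity
  have e1 := (((dm.inv hm).const_mul (cc Y v Θ)).arctan).const_mul (cc Y v Θ)
  have e2 := (dx.inv hx.ne').arctan
  have e3 := (dy.inv hy.ne').arctan
  have e4 := e1.sub (e2.add e3)
  have e5 : (fun c => EE Y v c Θ) = fun c => cc Y v Θ * Real.arctan (cc Y v Θ *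
      (xx Y c Θ + yy Y c Θ)⁻¹) - (Real.arctan (xx Y c Θ)⁻¹ + Real.arctan (yy Y c Θ)⁻¹) := by
    ext c; unfold EE; rw [div_eq_mul_inv]
  rw [e5]
  refine e4.congr_deriv ?_
  -- algebra
  unfold gap lf rf
  rw [ww_eq h hv h0 h1 Θ]
  set x := xx Y c Θ with hx'
  set y := yy Y c Θ with hy'
  set A := AA Y c Θ with hA'
  set B := BB Y c Θ with hB'
  set w := ww Y c Θ with hw'
  set k := cc Y v Θ with hk'
  have hk : (x + y) ^ 2 + k ^ 2 = 2 * (A + B) := by
    rw [hcc2, hsum, hvv]; ring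
  have hkpos : 0 < A + B := by positivity
  have s1 : k * (1 / (1 + (k * (x + y)⁻¹) ^ 2) * (k * (-(-w + -w) / (x + y) ^ 2)))
      = w * (k ^ 2 / (A + B)) := by
    have t1 : 1 + (k * (x + y)⁻¹) ^ 2 = 2 * (A + B) / (x + y) ^ 2 := by
      rw [← hk]; field_simp
    rw [t1]
    field_simp
    ring
  have s2 : 1 / (1 + (x⁻¹) ^ 2) * (- -w / x ^ 2) = w * (1 / (1 + x ^ 2)) := by
    field_simp
    ring
  have s3 : 1 / (1 + (y⁻¹) ^ 2) * (- -w / y ^ 2) = w * (1 / (1 + y ^ 2)) := by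
    field_simp
    ring
  have s4 : k ^ 2 = 2 * (A + B) - (x + y) ^ 2 := by linarith
  have hgoal : w * (k ^ 2 / (A + B)) - (w * (1 / (1 + x ^ 2)) + w * (1 / (1 + y ^ 2))) =
      w * ((x * B - y * A) ^ 2 / (A * B * (A + B))) +
      ((x ^ 2 / (1 + x ^ 2) - x ^ 2 / A) * w - (y ^ 2 / B - y ^ 2 / (1 + y ^ 2)) * w) := by
    rw [s4]
    have hx2 : (1 : ℝ) + x ^ 2 ≠ 0 := by positivity
    have hy2 : (1 : ℝ) + y ^ 2 ≠ 0 := by positivity
    field_simp
    ring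
  rw [← hgoal, ← s1, ← s2, ← s3]
  simp only [Pi.inv_apply]
  ring

lemma cc_cont (h : IsCollar Y) (hv : HV Y v) : Continuous (cc Y v) := by
  unfold cc
  exact (((v_cont h hv).pow 2).add continuous_const |>.sub
    (continuous_const.mul (vp_cont h))).sqrt

lemma EE_cont (h : IsCollar Y) (hv : HV Y v) :
    ContinuousOn (fun q : ℝ × ℝ => EE Y v q.1 q.2) DD := by
  unfold EE
  have ec : ContinuousOn (fun q : ℝ × ℝ => cc Y v q.2) DD :=
    ((cc_cont h hv).comp continuous_snd).continuousOn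
  have e1 : ContinuousOn (fun q : ℝ × ℝ => cc Y v q.2 / (xx Y q.1 q.2 + yy Y q.1 q.2)) DD :=
    ec.div ((xx_cont h).add (yy_cont h)) (fun q hq => by
      have := xx_pos h hq.1 hq.2 q.2
      have := yy_pos h hq.1 hq.2 q.2
      positivity)
  have e2 : ContinuousOn (fun q : ℝ × ℝ => (xx Y q.1 q.2)⁻¹) DD :=
    (xx_cont h).inv₀ (fun q hq => (xx_pos h hq.1 hq.2 q.2).ne')
  have e3 : ContinuousOn (fun q : ℝ × ℝ => (yy Y q.1 q.2)⁻¹) DD :=
    (yy_cont h).inv₀ (fun q hq => (yy_pos h hq.1 hq.2 q.2).ne')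
  exact (ec.mul (Real.continuous_arctan.comp_continuousOn e1)).sub
    ((Real.continuous_arctan.comp_continuousOn e2).add
      (Real.continuous_arctan.comp_continuousOn e3))

lemma EE_bound (c Θ : ℝ) : ‖EE Y v c Θ‖ ≤ cc Y v Θ * (π / 2) + π := by
  unfold EE
  have hc : 0 ≤ cc Y v Θ := Real.sqrt_nonneg _
  have h1 : ∀ t : ℝ, |Real.arctan t| ≤ π / 2 := fun t =>
    abs_le.2 ⟨(Real.neg_pi_div_two_lt_arctan t).le, (Real.arctan_lt_pi_div_two t).le⟩
  rw [Real.norm_eq_abs]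
  have e1 := h1 (cc Y v Θ / (xx Y c Θ + yy Y c Θ))
  have e2 := h1 (xx Y c Θ)⁻¹
  have e3 := h1 (yy Y c Θ)⁻¹
  calc |cc Y v Θ * Real.arctan (cc Y v Θ / (xx Y c Θ + yy Y c Θ))
        - (Real.arctan (xx Y c Θ)⁻¹ + Real.arctan (yy Y c Θ)⁻¹)|
      ≤ |cc Y v Θ * Real.arctan (cc Y v Θ / (xx Y c Θ + yy Y c Θ))|
        + |Real.arctan (xx Y c Θ)⁻¹ + Real.arctan (yy Y c Θ)⁻¹| := abs_sub _ _
    _ ≤ cc Y v Θ * (π / 2) + (π / 2 + π / 2) := by
        refine add_le_add ?_ ((abs_add_le _ _).trans (add_le_add e2 e3))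
        rw [abs_mul, abs_of_nonneg hc]
        exact mul_le_mul_of_nonneg_left e1 hc
    _ = cc Y v Θ * (π / 2) + π := by ring

lemma NN_hasDerivAt (h : IsCollar Y) (hv : HV Y v)
    (hpos : ∀ Θ, 0 < v Θ ^ 2 + 4 - 2 * vp Y Θ) {c : ℝ} (h0 : 0 < c) (h1 : c < 1) :
    HasDerivAt (NN Y v) (∫ Θ in (0 : ℝ)..(2 * π), gap Y c Θ) c := by
  obtain ⟨a, ha0, hac⟩ := exists_between h0
  obtain ⟨b, hcb, hb1⟩ := exists_between h1
  have hmem : Ioo a b ∈ 𝓝 c := Ioo_mem_nhds hac hcb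
  have hsub : Icc a b ×ˢ Icc 0 (2 * π) ⊆ DD := fun q hq =>
    ⟨ha0.trans_le hq.1.1, hq.1.2.trans hb1.le⟩
  have hcont : ContinuousOn (fun q : ℝ × ℝ => gap Y q.1 q.2 + (lf Y q.1 q.2 - rf Y q.1 q.2)) DD :=
    (gap_cont h).add ((lf_cont h).sub (rf_cont h))
  obtain ⟨M, hM⟩ := (isCompact_Icc.prod isCompact_Icc).exists_bound_of_continuousOn
    (hcont.mono hsub)
  have key := intervalIntegral.hasDerivAt_integral_of_dominated_loc_of_deriv_le
    (μ := volume) (a := 0) (b := 2 * π) (F := fun c Θ => EE Y v c Θ)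
    (F' := fun c Θ => gap Y c Θ + (lf Y c Θ - rf Y c Θ)) (x₀ := c) (bound := fun _ => M) hmem
    (by
      filter_upwards [lt_mem_nhds h0, gt_mem_nhds h1] with t ht0 ht1
      exact (slice (EE_cont h hv) ht0 ht1.le).aestronglyMeasurable)
    ((slice (EE_cont h hv) h0 h1.le).intervalIntegrable _ _)
    (slice (f := fun c Θ => gap Y c Θ + (lf Y c Θ - rf Y c Θ)) hcont h0 h1.le).aestronglyMeasurable
    (Eventually.of_forall fun Θ hΘ t ht => hM (t, Θ) ⟨⟨ht.1.le, ht.2.le⟩, by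
      rw [uIoc_of_le (by positivity)] at hΘ
      exact ⟨hΘ.1.le, hΘ.2⟩⟩)
    intervalIntegrable_const
    (Eventually.of_forall fun Θ _ t ht =>
      EE_hasDerivAt h hv hpos (ha0.trans ht.1) (ht.2.trans hb1) Θ)
  refine key.2.congr_deriv ?_
  have c1 := slice (gap_cont h) h0 h1.le
  have c2 := slice (lf_cont h) h0 h1.le
  have c3 := slice (rf_cont h) h0 h1.le
  have i1 := intervalIntegral.integral_add (μ := volume) (a := 0) (b := 2 * π)
    (f := fun Θ => gap Y c Θ) (g := fun Θ => lf Y c Θ - rf Y c Θ)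
    (c1.intervalIntegrable _ _) ((c2.sub c3).intervalIntegrable _ _)
  have i2 := intervalIntegral.integral_sub (μ := volume) (a := 0) (b := 2 * π)
    (f := fun Θ => lf Y c Θ) (g := fun Θ => rf Y c Θ)
    (c2.intervalIntegrable _ _) (c3.intervalIntegrable _ _)
  rw [i1, i2, integral_lf_eq h h0 h1.le]
  ring

lemma NN_continuousOn (h : IsCollar Y) (hv : HV Y v) : ContinuousOn (NN Y v) (Ioc 0 1) := by
  intro c hc
  unfold NN
  refine intervalIntegral.continuousWithinAt_of_dominated_interval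
    (bound := fun Θ => cc Y v Θ * (π / 2) + π) ?_ ?_ ?_ ?_
  · filter_upwards [self_mem_nhdsWithin] with t ht
    exact (slice (EE_cont h hv) ht.1 ht.2).aestronglyMeasurable
  · exact Eventually.of_forall fun t => Eventually.of_forall fun Θ _ => EE_bound t Θ
  · exact (((cc_cont h hv).mul continuous_const).add continuous_const).intervalIntegrable _ _
  · refine Eventually.of_forall fun Θ _ => ?_
    have e1 := EE_cont h hv (c, Θ) hc
    have e2 : ContinuousWithinAt (fun c : ℝ => ((c, Θ) : ℝ × ℝ)) (Ioc 0 1) c := by fun_prop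
    exact ContinuousWithinAt.comp (f := fun c : ℝ => ((c, Θ) : ℝ × ℝ)) (x := c)
      (t := DD) e1 e2 (fun t ht => ht)

lemma NN_monotone (h : IsCollar Y) (hv : HV Y v)
    (hpos : ∀ Θ, 0 < v Θ ^ 2 + 4 - 2 * vp Y Θ) : MonotoneOn (NN Y v) (Ioc 0 1) := by
  refine monotoneOn_of_deriv_nonneg (convex_Ioc 0 1) (NN_continuousOn h hv) ?_ ?_
  · intro c hc
    rw [interior_Ioc] at hc
    exact (NN_hasDerivAt h hv hpos hc.1 hc.2).differentiableAt.differentiableWithinAt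
  · intro c hc
    rw [interior_Ioc] at hc
    rw [(NN_hasDerivAt h hv hpos hc.1 hc.2).deriv]
    exact intervalIntegral.integral_nonneg (by positivity)
      (fun Θ _ => gap_nonneg h hc.1 hc.2.le Θ)

/-- Small leaves are close to the circle. -/
lemma S_tendsto (h : IsCollar Y) (Θ : ℝ) {σ : ℝ} (hσ : σ ^ 2 = 1) :
    Tendsto (fun c => S Y σ c Θ) (𝓝[>] 0) (𝓝 0) := by
  rw [Metric.tendsto_nhds]
  intro ε hε
  obtain ⟨h2, h3⟩ := S_spec h hσ one_pos le_rfl Θ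
  set s1 := S Y σ 1 Θ with hs1
  -- choose a small positive parameter
  set t := min (ε / 2) (σ * s1 / 2) with ht
  have htpos : 0 < t := lt_min (by positivity) (by positivity)
  have htlt : t < σ * s1 := lt_of_le_of_lt (min_le_right _ _) (by linarith)
  have hσσ : ∀ a : ℝ, σ * (σ * a) = a := fun a => by rw [← mul_assoc, ← pow_two, hσ, one_mul]
  -- monotonicity along the half line
  have mono : ∀ a b : ℝ, 0 < a → a < b → Y (P Θ (σ * b)) ≤ 1 →
      Y (P Θ (σ * a)) < Y (P Θ (σ * b)) := by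
    intro a b ha hab hb1
    have hb : 0 < b := ha.trans hab
    have hσ0 : σ ≠ 0 := by rintro rfl; norm_num at hσ
    have h0' := h.pos_P Θ (mul_ne_zero hσ0 hb.ne')
    have hq1 : a / b < 1 := by rw [div_lt_one hb]; exact hab
    have hint : exp (Θ * I) ∈ interior {w | Y w ≤ Y (P Θ (σ * b))} :=
      h.disc_mem_interior h0' hb1 (by rw [norm_exp_ofReal_mul_I])
    have hmem : P Θ (σ * b) ∈ {w | Y w ≤ Y (P Θ (σ * b))} := le_refl (Y (P Θ (σ * b)))
    have hconv := h.convex _ h0'.le hb1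
    have h5 := hconv.combo_interior_self_mem_interior hint hmem (sub_pos.2 hq1)
      (by positivity : 0 ≤ a / b) (by ring)
    have h6 : (1 - a / b) • exp (Θ * I) + (a / b) • P Θ (σ * b) = P Θ (σ * a) := by
      rw [P_eq, P_eq Θ (σ * a), smul_add, smul_smul, sub_smul, one_smul]
      have : a / b * (σ * b) = σ * a := by field_simp
      rw [this]; ring
    rw [h6] at h5
    exact h.lt_of_mem_interior h0' hb1 h5
  have hle1 : Y (P Θ (σ * t)) < 1 := by
    have := mono t (σ * s1) htpos htlt (by rw [hσσ]; exact h3.le)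
    rw [hσσ, h3] at this
    exact this
  have hδ : 0 < Y (P Θ (σ * t)) := by
    have hσ0 : σ ≠ 0 := by rintro rfl; norm_num at hσ
    exact h.pos_P Θ (mul_ne_zero hσ0 htpos.ne')
  have e1 : ∀ᶠ c in 𝓝[>] (0 : ℝ), c < Y (P Θ (σ * t)) :=
    (tendsto_id.mono_left nhdsWithin_le_nhds).eventually (gt_mem_nhds hδ)
  filter_upwards [e1, self_mem_nhdsWithin] with c hc hc0
  rw [mem_Ioi] at hc0
  obtain ⟨h4, h5⟩ := S_spec h hσ hc0 (hc.trans hle1).le Θ
  rw [Real.dist_eq, sub_zero]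
  have habs : |S Y σ c Θ| = σ * S Y σ c Θ := by
    have : |σ| = 1 := by
      have : |σ| ^ 2 = 1 := by rw [sq_abs]; exact hσ
      nlinarith [abs_nonneg σ]
    rw [← abs_of_pos h4, abs_mul, this, one_mul]
  rw [habs]
  by_contra hcon
  push Not at hcon
  have h6 : t < σ * S Y σ c Θ := by
    have : t ≤ ε / 2 := min_le_left _ _
    linarith
  have h7 := mono t (σ * S Y σ c Θ) htpos h6 (by rw [hσσ, h5]; exact (hc.trans hle1).le)
  rw [hσσ, h5] at h7
  linarith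

lemma EE_tendsto (h : IsCollar Y) (Θ : ℝ) :
    Tendsto (fun c => EE Y v c Θ) (𝓝[>] 0) (𝓝 0) := by
  have e1 := S_tendsto h Θ (σ := 1) (by norm_num)
  have e2 := S_tendsto h Θ (σ := -1) (by norm_num)
  have hev : ∀ᶠ c in 𝓝[>] (0 : ℝ), 0 < c ∧ c ≤ 1 := by
    have e3 : ∀ᶠ c in 𝓝[>] (0 : ℝ), c < 1 :=
      (tendsto_id.mono_left nhdsWithin_le_nhds).eventually (gt_mem_nhds one_pos)
    filter_upwards [e3, self_mem_nhdsWithin] with c h1 h2
    exact ⟨h2, h1.le⟩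
  have ex : Tendsto (fun c => (xx Y c Θ)⁻¹) (𝓝[>] 0) (𝓝 0) := by
    have : (fun c => (xx Y c Θ)⁻¹) = fun c => -S Y (-1) c Θ := by
      ext c; unfold xx; rw [inv_neg, inv_inv]
    rw [this]
    simpa using e2.neg
  have ey : Tendsto (fun c => (yy Y c Θ)⁻¹) (𝓝[>] 0) (𝓝 0) := by
    have : (fun c => (yy Y c Θ)⁻¹) = fun c => S Y 1 c Θ := by
      ext c; unfold yy; rw [inv_inv]
    rw [this]; exact e1
  have em : Tendsto (fun c => cc Y v Θ / (xx Y c Θ + yy Y c Θ)) (𝓝[>] 0) (𝓝 0) := by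
    -- 0 ≤ cc / (x + y) ≤ cc * x⁻¹
    have hup : Tendsto (fun c => cc Y v Θ * (xx Y c Θ)⁻¹) (𝓝[>] 0) (𝓝 0) := by
      simpa using ex.const_mul (cc Y v Θ)
    refine tendsto_of_tendsto_of_tendsto_of_le_of_le' tendsto_const_nhds hup ?_ ?_
    · filter_upwards [hev] with c hc
      have hx := xx_pos h hc.1 hc.2 Θ
      have hy := yy_pos h hc.1 hc.2 Θ
      have hc' : 0 ≤ cc Y v Θ := Real.sqrt_nonneg _
      positivity
    · filter_upwards [hev] with c hc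
      have hx := xx_pos h hc.1 hc.2 Θ
      have hy := yy_pos h hc.1 hc.2 Θ
      have hc' : 0 ≤ cc Y v Θ := Real.sqrt_nonneg _
      rw [div_eq_mul_inv]
      refine mul_le_mul_of_nonneg_left ?_ hc'
      exact inv_anti₀ hx (by linarith)
  have hat : Tendsto Real.arctan (𝓝 0) (𝓝 0) := by
    have := Real.continuous_arctan.tendsto 0
    rwa [Real.arctan_zero] at this
  have := ((hat.comp em).const_mul (cc Y v Θ)).sub ((hat.comp ex).add (hat.comp ey))
  simpa [EE, Function.comp_def] using this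

lemma NN_tendsto (h : IsCollar Y) (hv : HV Y v) : Tendsto (NN Y v) (𝓝[>] 0) (𝓝 0) := by
  have key : Tendsto (fun c => ∫ Θ in (0 : ℝ)..(2 * π), EE Y v c Θ) (𝓝[>] 0)
      (𝓝 (∫ _ in (0 : ℝ)..(2 * π), (0 : ℝ))) := by
    refine intervalIntegral.tendsto_integral_filter_of_dominated_convergence
      (fun Θ => cc Y v Θ * (π / 2) + π) ?_ ?_ ?_ ?_
    · have e3 : ∀ᶠ c in 𝓝[>] (0 : ℝ), c < 1 :=
        (tendsto_id.mono_left nhdsWithin_le_nhds).eventually (gt_mem_nhds one_pos)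
      filter_upwards [e3, self_mem_nhdsWithin] with c h1 h2
      exact (slice (EE_cont h hv) h2 h1.le).aestronglyMeasurable
    · exact Eventually.of_forall fun t => Eventually.of_forall fun Θ _ => EE_bound t Θ
    · exact (((cc_cont h hv).mul continuous_const).add continuous_const).intervalIntegrable _ _
    · exact Eventually.of_forall fun Θ _ => EE_tendsto h Θ
  have e : NN Y v = fun c => ∫ Θ in (0 : ℝ)..(2 * π), EE Y v c Θ := rfl
  rw [e]
  simpa using key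

/-- The E. Hopf inequality at the outer leaf. -/
theorem NN_nonneg (h : IsCollar Y) (hv : HV Y v)
    (hpos : ∀ Θ, 0 < v Θ ^ 2 + 4 - 2 * vp Y Θ) {c : ℝ} (h0 : 0 < c) (h1 : c ≤ 1) :
    0 ≤ NN Y v c := by
  refine le_of_tendsto (NN_tendsto h hv) ?_
  have e3 : ∀ᶠ t in 𝓝[>] (0 : ℝ), t < c :=
    (tendsto_id.mono_left nhdsWithin_le_nhds).eventually (gt_mem_nhds h0)
  filter_upwards [e3, self_mem_nhdsWithin] with t ht ht0
  exact NN_monotone h hv hpos ⟨ht0, ht.le.trans h1⟩ ⟨h0, h1⟩ ht.le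

/-- The equality case. -/
theorem equality (h : IsCollar Y) (hv : HV Y v)
    (hpos : ∀ Θ, 0 < v Θ ^ 2 + 4 - 2 * vp Y Θ) (hN : NN Y v 1 ≤ 0) {c : ℝ} (h0 : 0 < c)
    (h1 : c < 1) (Θ : ℝ) : xx Y c Θ * BB Y c Θ = yy Y c Θ * AA Y c Θ := by
  have hzero : ∀ t, 0 < t → t ≤ 1 → NN Y v t = 0 := fun t ht0 ht1 =>
    le_antisymm ((NN_monotone h hv hpos ⟨ht0, ht1⟩ ⟨one_pos, le_rfl⟩ ht1).trans hN)
      (NN_nonneg h hv hpos ht0 ht1)
  have hd := NN_hasDerivAt h hv hpos h0 h1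
  have hd2 : HasDerivAt (NN Y v) 0 c := by
    refine (hasDerivAt_const c (0 : ℝ)).congr_of_eventuallyEq ?_
    filter_upwards [lt_mem_nhds h0, gt_mem_nhds h1] with t ht0 ht1
    exact hzero t ht0 ht1.le
  have hint := hd.unique hd2
  have hcont : Continuous (fun Θ => gap Y c Θ) := slice (gap_cont h) h0 h1.le
  -- the gap is periodic and nonnegative with zero integral over each period
  have hper : Function.Periodic (fun Θ => gap Y c Θ) (2 * π) := by
    intro t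
    unfold gap ww AA BB den
    simp only [xx_periodic, yy_periodic, S_periodic, Z_periodic]
  have hint2 : ∫ t in (Θ - π)..(Θ - π + 2 * π), gap Y c t = 0 := by
    have := hper.intervalIntegral_add_eq (Θ - π) 0
    rw [zero_add] at this
    rw [this, hint]
  have hg : gap Y c Θ = 0 := by
    by_contra hne
    have hpos' : 0 < ∫ t in (Θ - π)..(Θ - π + 2 * π), gap Y c t := by
      have hpi := Real.pi_pos
      refine intervalIntegral.integral_pos (by linarith) hcont.continuousOn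
        (fun t _ => gap_nonneg h h0 h1.le t) ⟨Θ, ⟨by linarith, by linarith⟩, ?_⟩
      exact lt_of_le_of_ne (gap_nonneg h h0 h1.le Θ) (Ne.symm hne)
    linarith
  unfold gap at hg
  have e1 := AA_pos h h0 h1.le Θ
  have e2 := BB_pos h h0 h1.le Θ
  have e3 := ww_pos h h0 h1.le Θ
  rcases mul_eq_zero.1 hg with h4 | h4
  · exact absurd h4 e3.ne'
  · rcases div_eq_zero_iff.1 h4 with h5 | h5
    · have := pow_eq_zero_iff (n := 2) (by norm_num) |>.1 h5
      linarith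
    · exfalso
      have : 0 < AA Y c Θ * BB Y c Θ * (AA Y c Θ + BB Y c Θ) := by positivity
      exact this.ne' h5

end

end Pool.Agent.H719R2.PIB
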