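import Pool.Agent.H719R2.PIB.Geom

/-!
# The intersection parameter as a differentiable function of the leaf and the tangent line
-/

open Set Filter Topology Complex
open scoped ContDiff Real

namespace Pool.Agent.H719R2.PIB

variable {Y : ℂ → ℝ}

/-- The parameter of the intersection of the leaf `c` with the half tangent line on the side
`σ = ± 1` of `exp (i Θ)`. -/
noncomputable def S (Y : ℂ → ℝ) (σ c Θ : ℝ) : ℝ :=
  Classical.epsilon (fun s => 0 < σ * s ∧ Y (P Θ s) = c)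

lemma S_spec (h : IsCollar Y) {σ c : ℝ} (hσ : σ ^ 2 = 1) (h0 : 0 < c) (h1 : c ≤ 1) (Θ : ℝ) :
    0 < σ * S Y σ c Θ ∧ Y (P Θ (S Y σ c Θ)) = c :=
  Classical.epsilon_spec (h.exists_P Θ h0 h1 hσ)

lemma S_unique (h : IsCollar Y) {σ c : ℝ} (hσ : σ ^ 2 = 1) (h0 : 0 < c) (h1 : c ≤ 1) {Θ s : ℝ}
    (hs : 0 < σ * s) (hc : Y (P Θ s) = c) : s = S Y σ c Θ := by
  obtain ⟨h2, h3⟩ := S_spec h hσ h0 h1 Θ
  apply h.unique_P (Θ := Θ) ?_ (by rw [hc]; exact h1) (by rw [hc, h3])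
  have h4 : s * S Y σ c Θ = (σ * s) * (σ * S Y σ c Θ) := by
    have : (σ * s) * (σ * S Y σ c Θ) = σ ^ 2 * (s * S Y σ c Θ) := by ring
    rw [this, hσ, one_mul]
  rw [h4]; positivity

/-- The rotation derivative. -/
noncomputable def R (Y : ℂ → ℝ) (z : ℂ) : ℝ := fderiv ℝ Y z (I * z)

/-- The radial derivative. -/
noncomputable def N (Y : ℂ → ℝ) (z : ℂ) : ℝ := fderiv ℝ Y z z

lemma T_eq (Θ s : ℝ) : (1 + s ^ 2) • T Θ = I * P Θ s + s • P Θ s := by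
  simp only [T, P, real_smul]
  push_cast
  linear_combination (-(s : ℂ) * exp (Θ * I)) * I_sq

lemma fderiv_T (Θ s : ℝ) :
    fderiv ℝ Y (P Θ s) (T Θ) = (R Y (P Θ s) + s * N Y (P Θ s)) / (1 + s ^ 2) := by
  have h1 : (0 : ℝ) < 1 + s ^ 2 := by positivity
  rw [eq_div_iff h1.ne', mul_comm]
  have h2 := congrArg (fderiv ℝ Y (P Θ s)) (T_eq Θ s)
  rw [map_smul, map_add, map_smul, smul_eq_mul, smul_eq_mul] at h2
  exact h2

lemma P_contDiff : ContDiff ℝ ∞ (fun u : (ℝ × ℝ) × ℝ => P u.1.2 u.2) := by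
  unfold P
  have h1 : ContDiff ℝ ∞ (fun u : (ℝ × ℝ) × ℝ => ((u.1.2 : ℝ) : ℂ) * I) :=
    (ofRealCLM.contDiff.comp (contDiff_snd.comp contDiff_fst)).mul contDiff_const
  have h2 : ContDiff ℝ ∞ (fun u : (ℝ × ℝ) × ℝ => (1 : ℂ) + ((u.2 : ℝ) : ℂ) * I) :=
    contDiff_const.add ((ofRealCLM.contDiff.comp contDiff_snd).mul contDiff_const)
  exact h1.cexp.mul h2

/-- Local structure of the intersection parameter. -/
theorem exists_implicit (h : IsCollar Y) {σ : ℝ} (hσ : σ ^ 2 = 1) {c₀ : ℝ} (h0 : 0 < c₀)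
    (h1 : c₀ ≤ 1) (Θ₀ : ℝ) :
    ∃ (ψ : ℝ × ℝ → ℝ) (L : ℝ × ℝ →L[ℝ] ℝ), HasStrictFDerivAt ψ L (c₀, Θ₀) ∧
      (∀ a b : ℝ, L (a, b) = (a - b * R Y (P Θ₀ (S Y σ c₀ Θ₀))) /
        fderiv ℝ Y (P Θ₀ (S Y σ c₀ Θ₀)) (T Θ₀)) ∧
      (∀ᶠ q in 𝓝 (c₀, Θ₀), 0 < q.1 → q.1 ≤ 1 → ψ q = S Y σ q.1 q.2) := by
  obtain ⟨hs0, hsc⟩ := S_spec h hσ h0 h1 Θ₀
  set s₀ := S Y σ c₀ Θ₀ with hs₀
  have hs0' : s₀ ≠ 0 := by rintro h; rw [h] at hs0; simp at hs0
  set z := P Θ₀ s₀ with hz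
  have hzle : Y z ≤ 1 := by rw [hsc]; exact h1
  have htr := h.transversal hs0' hzle
  have hD : fderiv ℝ Y z (T Θ₀) ≠ 0 := by
    intro hcon; rw [hcon] at htr; simp at htr
  -- strict differentiability of the defining function
  have hY : HasStrictFDerivAt Y (fderiv ℝ Y z) z :=
    (h.contDiffAt (h.nonneg_P _ _) hzle).hasStrictFDerivAt (by norm_num)
  have hPs : HasStrictFDerivAt (fun u : (ℝ × ℝ) × ℝ => P u.1.2 u.2)
      (fderiv ℝ (fun u : (ℝ × ℝ) × ℝ => P u.1.2 u.2) ((c₀, Θ₀), s₀)) ((c₀, Θ₀), s₀) :=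
    P_contDiff.contDiffAt.hasStrictFDerivAt (by norm_num)
  set LP := fderiv ℝ (fun u : (ℝ × ℝ) × ℝ => P u.1.2 u.2) ((c₀, Θ₀), s₀) with hLP
  have hf : HasStrictFDerivAt (fun u : (ℝ × ℝ) × ℝ => Y (P u.1.2 u.2) - u.1.1)
      ((fderiv ℝ Y z).comp LP - (ContinuousLinearMap.fst ℝ ℝ ℝ).comp
        (ContinuousLinearMap.fst ℝ (ℝ × ℝ) ℝ)) ((c₀, Θ₀), s₀) := by
    refine HasStrictFDerivAt.sub ?_ ?_
    · exact HasStrictFDerivAt.comp (f := fun u : (ℝ × ℝ) × ℝ => P u.1.2 u.2)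
        ((c₀, Θ₀), s₀) hY hPs
    · exact ((ContinuousLinearMap.fst ℝ ℝ ℝ).comp
        (ContinuousLinearMap.fst ℝ (ℝ × ℝ) ℝ)).hasStrictFDerivAt
  -- value of LP
  have hLPval : ∀ a b c : ℝ, LP ((a, b), c) = b • (I * z) + c • T Θ₀ := by
    intro a b c
    have h2 : HasDerivAt (fun τ : ℝ => (((c₀ + τ * a, Θ₀ + τ * b), s₀ + τ * c) : (ℝ × ℝ) × ℝ))
        ((a, b), c) 0 := by
      have e1 : HasDerivAt (fun τ : ℝ => c₀ + τ * a) a 0 := by
        simpa using ((hasDerivAt_id (0 : ℝ)).mul_const a).const_add c₀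
      have e2 : HasDerivAt (fun τ : ℝ => Θ₀ + τ * b) b 0 := by
        simpa using ((hasDerivAt_id (0 : ℝ)).mul_const b).const_add Θ₀
      have e3 : HasDerivAt (fun τ : ℝ => s₀ + τ * c) c 0 := by
        simpa using ((hasDerivAt_id (0 : ℝ)).mul_const c).const_add s₀
      exact (e1.prodMk e2).prodMk e3
    have h3 : HasFDerivAt (fun u : (ℝ × ℝ) × ℝ => P u.1.2 u.2) LP
        ((fun τ : ℝ => (((c₀ + τ * a, Θ₀ + τ * b), s₀ + τ * c) : (ℝ × ℝ) × ℝ)) 0) := by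
      simpa using hPs.hasFDerivAt
    have h4 := HasFDerivAt.comp_hasDerivAt
      (f := fun τ : ℝ => (((c₀ + τ * a, Θ₀ + τ * b), s₀ + τ * c) : (ℝ × ℝ) × ℝ)) (0 : ℝ) h3 h2
    have h5 : HasDerivAt (fun τ : ℝ => P (Θ₀ + τ * b) (s₀ + τ * c)) (b • (I * z) + c • T Θ₀) 0 := by
      have e2 : HasDerivAt (fun τ : ℝ => ((Θ₀ + τ * b : ℝ) : ℂ)) (b : ℂ) 0 := by
        have : HasDerivAt (fun τ : ℝ => Θ₀ + τ * b) b 0 := by
          simpa using ((hasDerivAt_id (0 : ℝ)).mul_const b).const_add Θ₀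
        exact this.ofReal_comp
      have e3 : HasDerivAt (fun τ : ℝ => ((s₀ + τ * c : ℝ) : ℂ)) (c : ℂ) 0 := by
        have : HasDerivAt (fun τ : ℝ => s₀ + τ * c) c 0 := by
          simpa using ((hasDerivAt_id (0 : ℝ)).mul_const c).const_add s₀
        exact this.ofReal_comp
      have e4 := ((e2.mul_const I).cexp).mul ((e3.mul_const I).const_add 1)
      refine e4.congr_deriv ?_
      simp only [hz, P, T, real_smul, zero_mul, add_zero]
      ring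
    exact h4.unique h5
  -- partial derivative in the last variable
  set f' := (fderiv ℝ Y z).comp LP - (ContinuousLinearMap.fst ℝ ℝ ℝ).comp
        (ContinuousLinearMap.fst ℝ (ℝ × ℝ) ℝ) with hf'
  have hf'val : ∀ a b c : ℝ, f' ((a, b), c) = b * R Y z + c * fderiv ℝ Y z (T Θ₀) - a := by
    intro a b c
    simp only [hf', _root_.sub_apply, ContinuousLinearMap.comp_apply,
      hLPval, map_add, map_smul, smul_eq_mul, R, ContinuousLinearMap.coe_fst']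
  have hinv : (f' ∘L .inr ℝ (ℝ × ℝ) ℝ).IsInvertible := by
    refine ⟨ContinuousLinearEquiv.unitsEquivAut ℝ (Units.mk0 _ hD), ?_⟩
    ext
    have := hf'val 0 0 1
    simp only [ContinuousLinearEquiv.coe_coe, ContinuousLinearEquiv.unitsEquivAut_apply,
      Units.val_mk0, one_mul, ContinuousLinearMap.comp_apply, ContinuousLinearMap.inr_apply]
    have h6 : ((0 : ℝ × ℝ), (1 : ℝ)) = (((0 : ℝ), (0 : ℝ)), (1 : ℝ)) := rfl
    rw [h6, this]; ring
  have hinvval : ∀ x : ℝ, (f' ∘L .inr ℝ (ℝ × ℝ) ℝ).inverse x = x / fderiv ℝ Y z (T Θ₀) := by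
    intro x
    have h6 : (f' ∘L .inr ℝ (ℝ × ℝ) ℝ) (x / fderiv ℝ Y z (T Θ₀)) = x := by
      have := hf'val 0 0 (x / fderiv ℝ Y z (T Θ₀))
      simp only [ContinuousLinearMap.comp_apply, ContinuousLinearMap.inr_apply]
      have h7 : ((0 : ℝ × ℝ), (x / fderiv ℝ Y z (T Θ₀))) =
        (((0 : ℝ), (0 : ℝ)), (x / fderiv ℝ Y z (T Θ₀))) := rfl
      rw [h7, this]; field_simp; ring
    conv_lhs => rw [← h6]
    exact hinv.inverse_apply_eq.2 rfl
  refine ⟨hf.implicitFunctionOfProdDomain hinv, _,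
    hf.hasStrictFDerivAt_implicitFunctionOfProdDomain hinv, ?_, ?_⟩
  · intro a b
    simp only [_root_.neg_apply, ContinuousLinearMap.comp_apply, ContinuousLinearMap.inl_apply]
    rw [hf'val, hinvval]
    ring
  · have e1 := hf.eventually_apply_implicitFunctionOfProdDomain hinv
    have e2 := hf.tendsto_implicitFunctionOfProdDomain hinv
    have e3 : ∀ᶠ q in 𝓝 (c₀, Θ₀), 0 < σ * hf.implicitFunctionOfProdDomain hinv q := by
      have : Tendsto (fun q => σ * hf.implicitFunctionOfProdDomain hinv q) (𝓝 (c₀, Θ₀))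
          (𝓝 (σ * s₀)) := e2.const_mul σ
      exact this.eventually (lt_mem_nhds hs0)
    filter_upwards [e1, e3] with q hq1 hq2 hq3 hq4
    apply S_unique h hσ hq3 hq4 hq2
    rw [show Y (P Θ₀ s₀) = c₀ from hsc] at hq1
    linarith

end Pool.Agent.H719R2.PIB
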